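import Pool.Agent.Helper81.Sus2.LSW

/-!
# The edges are computed in linear space
-/

namespace Pool.Agent.Helper81.Sus2H14

open Pool.Agent.Helper65.LinSpace Pool.Agent.Helper78.Mpc Pool.Agent.Helper28.Ram Finset Filter
open Pool.Agent.Helper81.Sus2 Pool.Agent.Helper28.Sus Pool.Agent.Helper81.Sus2H56

variable {α : Type} [Ctx α] {β : Type} [Ctx β]

theorem ls_pV {P : α → Prm} {C : α → ℕ} (h : LSP P C) : LS (fun z => 2 ^ (P z).V) := by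
  have hV := h.V
  refine LS.pow_of_le (f := fun _ => 2) (by fun_prop) (by fun_prop) h.hC fun z => ?_
  exact (Nat.pow_le_pow_right (by norm_num) (by omega)).trans (h.bV z)

theorem ls_pu {P : α → Prm} {C : α → ℕ} (h : LSP P C) : LS (fun z => 2 ^ (P z).u) := by
  have hu := h.u
  exact LS.pow_of_le (f := fun _ => 2) (by fun_prop) (by fun_prop) h.hC fun z => h.bu z

theorem lse : LSE_stmt := by
  intro α _ P C h F hF
  -- the context with all variables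
  have h4 : LSP (fun z : (((α × ℕ × ℕ) × ℕ) × ℕ) × ℕ => P z.1.1.1.1)
      (fun z => C z.1.1.1.1) := lsp_comp h (by fun_prop)
  have hF4 : LS (fun z : (((α × ℕ × ℕ) × ℕ) × ℕ) × ℕ =>
      F z.1.1.1.1 z.1.1.1.2.1 z.1.1.1.2.2 z.1.1.2 z.1.2 z.2) :=
    LS.comp (g := fun z : α × ℕ × ℕ × ℕ × ℕ × ℕ => F z.1 z.2.1 z.2.2.1 z.2.2.2.1 z.2.2.2.2.1
      z.2.2.2.2.2) (f := fun z : (((α × ℕ × ℕ) × ℕ) × ℕ) × ℕ =>
        (z.1.1.1.1, z.1.1.1.2.1, z.1.1.1.2.2, z.1.1.2, z.1.2, z.2)) hF (by fun_prop)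
  have hcl : LS (fun z : (((α × ℕ × ℕ) × ℕ) × ℕ) × ℕ =>
      (P z.1.1.1.1).cl z.1.1.1.2.2 z.2) := ls_cl h4 (by fun_prop) (by fun_prop)
  have hro : LS (fun z : (((α × ℕ × ℕ) × ℕ) × ℕ) × ℕ => Prm.ro z.2) := ls_ro (by fun_prop)
  have hbad : LS (fun z : (((α × ℕ × ℕ) × ℕ) × ℕ) × ℕ =>
      bad (P z.1.1.1.1) (F z.1.1.1.1) z.1.1.1.2.1 z.1.1.1.2.2 z.1.1.2 z.1.2 z.2) := by
    unfold bad
    have ha : LS (fun z : (((α × ℕ × ℕ) × ℕ) × ℕ) × ℕ => z.2) := by fun_prop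
    have hd : LS (fun z : (((α × ℕ × ℕ) × ℕ) × ℕ) × ℕ => z.1.1.1.2.2) := by fun_prop
    exact LS.ifz (LS.ifz ha (LS.const 1) (LS.mul (LS.lt01 (LS.const 0) hd)
      (LS.mul (LS.sub (LS.const 1) hro) (LS.lt01 (LS.const 0) hcl)))) (LS.const 0)
      (LS.sub (LS.const 1) (LS.eq01 hF4 (LS.const 1)))
  have h3 : LSP (fun z : ((α × ℕ × ℕ) × ℕ) × ℕ => P z.1.1.1) (fun z => C z.1.1.1) :=
    lsp_comp h (by fun_prop)
  have hs1 : LS (fun z : ((α × ℕ × ℕ) × ℕ) × ℕ => ∑ a ∈ range (2 ^ ((P z.1.1.1).S + 1)),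
      bad (P z.1.1.1) (F z.1.1.1) z.1.1.2.1 z.1.1.2.2 z.1.2 z.2 a) := by
    refine LS.sum_le (N := fun z : ((α × ℕ × ℕ) × ℕ) × ℕ => 2 ^ ((P z.1.1.1).S + 1))
      (B := fun _ => 1) (f := fun z a => bad (P z.1.1.1) (F z.1.1.1) z.1.1.2.1 z.1.1.2.2
        z.1.2 z.2 a) hbad (ls_pS h3) (LS.const 1) fun z a _ => ?_
    unfold bad ifz
    split_ifs <;> omega
  have h2 : LSP (fun z : (α × ℕ × ℕ) × ℕ => P z.1.1) (fun z => C z.1.1) :=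
    lsp_comp h (by fun_prop)
  have hle : ∀ x y : ℕ, eq01 x y ≤ 1 := fun x y => by unfold eq01; split_ifs <;> omega
  have hs2 : LS (fun z : (α × ℕ × ℕ) × ℕ => ∑ τ ∈ range (2 ^ (P z.1.1).V),
      eq01 (∑ a ∈ range (2 ^ ((P z.1.1).S + 1)),
      bad (P z.1.1) (F z.1.1) z.1.2.1 z.1.2.2 z.2 τ a) 0) := by
    refine LS.sum_le (N := fun z : (α × ℕ × ℕ) × ℕ => 2 ^ (P z.1.1).V)
      (B := fun _ => 1) (f := fun z τ => eq01 (∑ a ∈ range (2 ^ ((P z.1.1).S + 1)),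
      bad (P z.1.1) (F z.1.1) z.1.2.1 z.1.2.2 z.2 τ a) 0) (LS.eq01 hs1 (LS.const 0)) (ls_pV h2)
      (LS.const 1) fun z a _ => hle _ _
  have h1 : LSP (fun z : α × ℕ × ℕ => P z.1) (fun z => C z.1) := lsp_comp h (by fun_prop)
  have hpV := ls_pV h1
  have hs3 : LS (fun z : α × ℕ × ℕ => ∑ Y ∈ range (2 ^ (P z.1).u), ∑ τ ∈ range (2 ^ (P z.1).V),
      eq01 (∑ a ∈ range (2 ^ ((P z.1).S + 1)),
      bad (P z.1) (F z.1) z.2.1 z.2.2 Y τ a) 0) := by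
    refine LS.sum_le (N := fun z : α × ℕ × ℕ => 2 ^ (P z.1).u)
      (B := fun z => 2 ^ (P z.1).V) (f := fun z Y => ∑ τ ∈ range (2 ^ (P z.1).V),
      eq01 (∑ a ∈ range (2 ^ ((P z.1).S + 1)),
      bad (P z.1) (F z.1) z.2.1 z.2.2 Y τ a) 0) hs2 (ls_pu h1) hpV fun z Y _ => ?_
    refine (sum_le_sum (g := fun _ => 1) fun i _ => hle _ _).trans ?_
    simp
  have hcq : LS (fun z : α × ℕ × ℕ => (P z.1).cq z.2.2) := ls_cq h1 (by fun_prop)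
  have hc : LS (fun z : α × ℕ × ℕ => z.2.1) := by fun_prop
  have hd : LS (fun z : α × ℕ × ℕ => z.2.2) := by fun_prop
  unfold edge
  exact LS.add (LS.eq01 hc hd) (LS.mul (LS.lt01 (LS.const 0) hc) (LS.mul
    (LS.ifz hd (LS.const 1) (LS.mul (LS.lt01 (LS.const 1) hd) (LS.lt01 (LS.const 0) hcq)))
    (LS.lt01 (LS.const 0) hs3)))

end Pool.Agent.Helper81.Sus2H14
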