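import Pool.Agent.Helper81.Sus2.Num
import Pool.Agent.Helper28.Few.Par

/-!
# Sustained complexity of the memory: the statements of the parts

Every statement comes with its proof in words.
-/

namespace Pool.Agent.Helper81.Sus2

open Pool.Agent.Helper65.LinSpace Pool.Agent.Helper78.Mpc Pool.Agent.Helper28.Ram Finset Filter
open Pool.Agent.Helper28.Sus (gf chs rc)

/-! ### Machines and codes -/

/-- The numbers in `P` code the functions of the machine `A`, for states and names of length at most
`P.S` and contents of length at most `P.Z`, and the input. -/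
structure Cod (A : NBM) (w y : List Bool) (P : Prm) : Prop where
  hA : ∀ q : List Bool, q.length ≤ P.S →
    P.fA (num q) = if (A.addr q).length ≤ P.S then num (A.addr q) else 0
  hK : ∀ q : List Bool, q.length ≤ P.S → P.fK (num q) = (A.ask q).toNat
  hG : ∀ q : List Bool, q.length ≤ P.S → P.fG (num q) = (A.msg q).toNat
  hR : ∀ q i : List Bool, q.length ≤ P.S → i.length ≤ P.S →
    P.fR (num q) (num i) = (A.reset (sd q ++ sd i)).toNat
  hN : ∀ (q v : List Bool) (b : Bool), q.length ≤ P.S → v.length ≤ P.Z →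
    P.fN (num q) b.toNat (num v) = if (A.next (sd q ++ (A.ask q && b) :: v)).length ≤ P.S then
      num (A.next (sd q ++ (A.ask q && b) :: v)) else 0
  hW : ∀ q i c : List Bool, q.length ≤ P.S → i.length ≤ P.S → c.length ≤ P.Z →
    P.fW (num q) (num i) (num c) =
      if (A.write (sd q ++ (sd i ++ if A.reset (sd q ++ sd i) then [] else c))).length ≤ P.Z then
        num (A.write (sd q ++ (sd i ++ if A.reset (sd q ++ sd i) then [] else c))) else 0
  hW0 : ∀ q i : List Bool, q.length ≤ P.S → i.length ≤ P.S → A.reset (sd q ++ sd i) = true →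
    P.fW (num q) (num i) 0 = P.fW (num q) (num i) (num [])
  hst : P.st = num A.start
  hini : ∀ a b, dig P.B0 P.ini (3 * codeO a + codeO b) = num (A.init a b)
  hx : P.x = num w
  hy : P.y = num y

/-- The numbers in `P` code the functions of the decompressor `E`. -/
structure CodE (E : Decomp) (P : Prm) : Prop where
  hD : ∀ σ : List Bool, σ.length ≤ P.Z →
    P.fD (num σ) = if (E.addr σ).length ≤ P.Z then num (E.addr σ) else 0
  hX : ∀ σ u : List Bool, σ.length ≤ P.Z → u.length ≤ 7 →
    P.fX (num σ) (num u) = if (E.next (sd σ ++ u)).length ≤ P.Z then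
      num (E.next (sd σ ++ u)) else 0

/-- COD. The codes come from `fnN_spec` (`Mpc/Words.lean`) for the eight functions and from
`exists_ini` (`Mpc/MMain.lean`); `c` is the sum of the eight constants. `fnN e S … (num u)` is
`num (f u)` if `|f u| ≤ S` and `0` otherwise, if `c' * (S + |u| + 2) ≤ Λ`,
`c' + Λ + S + |u| + 1 ≤ β`, `2 ^ (S + 1) ≤ B`; here `S` is `P.S`, `P.Z` or `1`, and `u` is a word
of length at most `2 * S + 1 + (2 * S + 1) + Z`. For a letter `b`, `num [b] = 2 + b.toNat`, so
`% 2` is `b.toNat`; `num (b :: v) = b.toNat + 2 * num v`; `sdN_num`, `catN_num`. `hW0`: if the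
message resets the register then `fR = 1` and `fW` does not depend on the content. Compare
`exists_code` in `Long/MCor.lean`. -/
def COD_stmt : Prop := ∀ (A : NBM) (E : Decomp), ∃ (e : Cde) (c : ℕ), ∀ (w y : List Bool) (P : Prm),
    P.toCde = e → P.x = num w → P.y = num y →
    c * (8 * P.S + 8 * P.Z + 8) ≤ P.Λ → c + P.Λ + 8 * P.S + 8 * P.Z + 8 ≤ P.β →
    2 ^ (P.S + 2) ≤ P.B → 2 ^ (P.Z + 2) ≤ P.B → Cod A w y P ∧ CodE E P

/-! ### A part of a computation -/

/-- The configuration after `t` steps and the number of guessed letters, the guessed letters being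
the bits of `Y`. -/
def NBM.ptr (A : NBM) (Y : ℕ) (c : List Bool × (List Bool → List Bool)) :
    ℕ → (List Bool × (List Bool → List Bool)) × ℕ
  | 0 => (c, 0)
  | t + 1 => (A.step (decide (dig 2 Y (A.ptr Y c t).2 = 1)) (A.ptr Y c t).1,
      (A.ptr Y c t).2 + (A.ask (A.ptr Y c t).1.1).toNat)

/-- The guessed letters. -/
def NBM.gs (A : NBM) (Y : ℕ) (c : List Bool × (List Bool → List Bool)) (t : ℕ) : Bool :=
  decide (dig 2 Y (A.ptr Y c t).2 = 1)

theorem NBM.run_gs (A : NBM) (Y : ℕ) (c : List Bool × (List Bool → List Bool)) (t : ℕ) :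
    A.run (A.gs Y c) c t = (A.ptr Y c t).1 := by
  induction t with
  | zero => rfl
  | succ t ih =>
    show A.step (A.gs Y c t) (A.run (A.gs Y c) c t) = _
    rw [ih]
    rfl

/-- The configuration with the number `c` describes (partially) the configuration `f` of the
machine: `0` describes accepting configurations, `1` the start, and `c ≥ 2` all configurations with
the right state whose registers contain what is known. -/
def Rep (A : NBM) (w y : List Bool) (P : Prm) (c : ℕ) (f : List Bool × (List Bool → List Bool)) :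
    Prop :=
  (c = 0 ∧ f.1.head? = some true) ∨ (c ≠ 0 ∧ num f.1 = P.cq c ∧ f.1.length ≤ P.S ∧
    (∀ i : List Bool, i.head? = some false → f.2 i = A.mem0 w y i) ∧
    ∀ i : List Bool, i.length ≤ P.S → i.head? ≠ some false →
      P.cl c (num i) = 0 ∨ P.cl c (num i) = num (f.2 i))

/-- SND. Soundness of the machine on numbers. Let `c ≠ 0` (see `Rep`). Put `g = A.gs Y f`,
`f_t = A.ptr Y f t` (`run_gs`). First for `|i| ≤ S` also for read-only `i` the number
`P.cm c (num i)` is `0` or `num (f.2 i)` (`hini`, `letN_num`; for `i = false :: v`, `num i = 2 * num v`,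
`ro (num i) = 1`, `ix (num i) = bval v` as `num v = bval v + 2 ^ |v|`, `Helper11.Ram.num_eq_bval`;
`ro (num i) = 0` if `i` does not begin with `false`). Invariant, by induction on `t ≤ τ`: the event
`(wf … t).1` is `0`, or it is `enc (num q_t) p_t t` with `|q_t| ≤ S`, `p_t ≤ u`, and for all
`|i| ≤ S` the content `(wf … t).2 (num i)` is `0` or `num (M_t i)`, where `f_t = ((q_t, M_t), p_t)`.
Decoding: `dq (enc q p t) = q`, `dp (enc q p t) = p`, `dt (enc q p t) = t` for `q < 2 ^ (S + 1)`,
`p ≤ u`. If the event is `0` it stays `0`. In the step, if the new event is not `0`, then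
`fA ≠ 0` and `fN ≠ 0`, so `|addr q_t| ≤ S`, the content `v` is not `0`, so it is `num (M_t (addr q_t))`
with length `≤ Z` (`capN` in `cm` and `wW`; keep in the invariant that all contents are smaller than
`2 ^ (Z + 1)`), `|q_(t+1)| ≤ S`, and not (`ask` and `p = u`). Contents: if the new state is a
message, `|i| ≤ S`, and `i` not read-only, then the new content is `capN Z (fW …)`, which is `0` or
`num` of the new content (`hW`; for the old content `0`: if the message resets `i` use `hW0`, else
`fW … 0 = 0` since `catN _ 0 = 0` and `fnN_zero`). The events `0` and `1` are kept. So if `(wf … T).1 = 1`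
then `T > τ` and `(wf … (τ + 1)).1 = 1`, which is the final check `wF d a (enc (num q_τ) p_τ τ) v` where
`v` is the content of the register `a` at the time `τ` (`wA = a` if `capN V a = a`). -/
def SND_stmt : Prop := ∀ (A : NBM) (w y : List Bool) (P : Prm), Cod A w y P → P.S ≤ P.V →
    ∀ (c d a τ Y T : ℕ) (f : List Bool × (List Bool → List Bool)), c ≠ 0 → Rep A w y P c f →
    a < 2 ^ (P.S + 1) → (P.wf τ Y c d a T).1 = 1 →
    (A.ptr Y f τ).1.1.length ≤ P.S ∧ (d = 0 → (A.ptr Y f τ).1.1.head? = some true) ∧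
    (d ≠ 0 → num (A.ptr Y f τ).1.1 = P.cq d ∧
      ∀ i : List Bool, num i = a → i.head? ≠ some false → P.cl d a ≠ 0 →
        P.cl d a = num ((A.ptr Y f τ).1.2 i))

/-- The register `i` is known after `t` steps: it is known in the configuration `c`, or it was
reset. -/
def Known (A : NBM) (P : Prm) (c : ℕ) (f : ℕ → List Bool × (List Bool → List Bool)) (t : ℕ)
    (i : List Bool) : Prop :=
  i.head? = some false ∨ P.cl c (num i) ≠ 0 ∨
    ∃ v, 0 < v ∧ v ≤ t ∧ A.msg (f v).1 = true ∧ A.reset (sd (f v).1 ++ sd i) = true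

/-- CMP. Completeness of the machine on numbers. `f_t = A.run g f t = (q_t, M_t)`; `p_t` is the number
of `t' < t` with `ask q_t'`. By induction on `t ≤ τ`: `(wf … t).1 = enc (num q_t) p_t t`, and for all
`|i| ≤ S`: if `i` is known after `t` steps then `(wf … t).2 (num i) = num (M_t i)` (for `t = 0` see
SND; `|M_0 i| ≤ Z`). Step: the register `addr q_t` is known, so the content is right, `hN`, `hA`, `hK`
give the new state, `p_t = u` and `ask` are impossible as `p_τ ≤ u`, and
`enc … ≤ 2 + 2 ^ (S + 1) * ((u + 1) * (τ + 1)) - 1 < 2 ^ (V + 1)`. Contents: if the new state is a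
message and `i` is not read-only, the content is `fW`, with the right old content if `i` was known
before, and for an `i` which is reset `hW0` or `hW`. If it is not a message or `i` is read-only,
nothing changes. At the time `τ` the final check gives `1`; then the event stays `1`. The steps of
`wf` before `τ + 1` which are not silent are those with `msg q_(t+1)`, `t < τ` (the event `1` is
silent). -/
def CMP_stmt : Prop := ∀ (A : NBM) (w y : List Bool) (P : Prm), Cod A w y P → P.S ≤ P.V →
    ∀ (c d a τ Y : ℕ) (g : ℕ → Bool) (f : List Bool × (List Bool → List Bool)), c ≠ 0 →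
    Rep A w y P c f →
    (∀ t ≤ τ, (A.run g f t).1.length ≤ P.S ∧ (A.addr (A.run g f t).1).length ≤ P.S ∧
      ∀ i : List Bool, i.length ≤ P.S → ((A.run g f t).2 i).length ≤ P.Z) →
    (∀ t < τ, Known A P c (A.run g f) t (A.addr (A.run g f t).1)) →
    (∀ t < τ, A.ask (A.run g f t).1 = true →
      dig 2 Y (∑ i ∈ range t, (A.ask (A.run g f i).1).toNat) = (g t).toNat) →
    ∑ i ∈ range τ, (A.ask (A.run g f i).1).toNat ≤ P.u →
    2 + 2 ^ (P.S + 1) * ((P.u + 1) * (τ + 1)) ≤ 2 ^ (P.V + 1) →
    a < 2 ^ (P.S + 1) →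
    (d = 0 → (A.run g f τ).1.head? = some true) →
    (d ≠ 0 → P.cq d = num (A.run g f τ).1 ∧ (a = 0 ∨ ∃ i : List Bool, i.length ≤ P.S ∧ a = num i ∧
      Known A P c (A.run g f) τ i ∧ P.cl d a = num ((A.run g f τ).2 i))) →
    (∀ T, τ < T → (P.wf τ Y c d a T).1 = 1) ∧
    chs (P.wA τ a) (P.wN τ Y d a) P.wQ P.wW (P.w0 c) (P.cm c) (τ + 1) ≤
      {t | t < τ ∧ A.msg (A.run g f (t + 1)).1 = true}.ncard

/-- SIL. Silent events do not change the memory, and the events `0`, `1` are kept. All contents are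
smaller than `2 ^ (Z + 1)` (`capN`), so `capN Z` keeps them. -/
def SIL_stmt : Prop := ∀ (P : Prm) (τ Y c d a : ℕ),
    (∀ t x f, P.wQ f ≠ 0 → P.wW x f ((P.wf τ Y c d a t).2 x) = (P.wf τ Y c d a t).2 x) ∧
    ∀ t, (P.wf τ Y c d a t).1 = 1 → (P.wf τ Y c d a (t + 1)).1 = 1

/-! ### Descriptions -/

/-- DEC. The decompressor on numbers. Put `Σ_t = E.run w y D i t` and
`N_t = P.dr (num D) (num i) t`. By induction on `t`: (a) if `|Σ_t'| ≤ Z` for `t' ≤ t` and
`|addr Σ_t'| ≤ Z` for all `t' < t` for which `Σ_t'` does not begin with `true`, then `N_t = num Σ_t`;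
(b) if `N_t ≠ 0` then the hypotheses of (a) hold. (`capN_num`, `capN_ne`, `hD`, `hX`, `fnN_zero`;
`num (false :: u) = 2 * num u`, `accN (num σ) = 1` iff `σ` begins with `true`; `P.dl (num D) (num u)` is
`num` of the word of the letters by `letN_num` and `num u = bval u + 2 ^ |u|`, `bval u < 2 ^ |u|`; a
state which begins with `true` is kept by both.) Let `Says w y Z D i v`, `T` minimal with
`Σ_T = true :: true :: v`. The states `Σ_t`, `t < T`, are pairwise different (after a repetition the run
is periodic and never reaches `Σ_T`) words of length `≤ Z`, of which there are fewer than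
`2 ^ (Z + 1)`, so `T ≤ 2 ^ (Z + 1)` and `N (2 ^ (Z + 1)) = num (true :: true :: v) = 3 + 4 * num v`.
Conversely, if `lk = num v`, which is not `0`, then `N (2 ^ (Z + 1)) = 3 + 4 * num v = num (true :: true :: v)`,
by (b) and (a) it is `num Σ_t` for `t = 2 ^ (Z + 1)`; `num` is injective; take the first `T` with
`Σ_T = true :: true :: v` (the states before it do not begin with `true`, since such a state is
kept). -/
def DEC_stmt : Prop := ∀ (E : Decomp) (w y : List Bool) (P : Prm), CodE E P → P.x = num w →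
    P.y = num y → ∀ D i v : List Bool, E.Says w y P.Z D i v ↔ P.lk (num D) (num i) = num v

/-! ### Edges and reachability -/

/-- `1` if the check of the register `a` is necessary and not successful. -/
def bad (P : Prm) (F : ℕ → ℕ → ℕ → ℕ → ℕ → ℕ) (c d Y τ a : ℕ) : ℕ :=
  ifz (ifz a 1 (lt01 0 d * ((1 - Prm.ro a) * lt01 0 (P.cl d a)))) 0 (1 - eq01 (F c d Y τ a) 1)

/-- A number which is not `0` if there is a part of a computation from the configuration `c` to the
configuration `d`; `F c d Y τ a` is the result of the simulation. -/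
def edge (P : Prm) (F : ℕ → ℕ → ℕ → ℕ → ℕ → ℕ) (c d : ℕ) : ℕ :=
  eq01 c d + lt01 0 c * (ifz d 1 (lt01 1 d * lt01 0 (P.cq d)) *
    lt01 0 (∑ Y ∈ range (2 ^ P.u), ∑ τ ∈ range (2 ^ P.V),
      eq01 (∑ a ∈ range (2 ^ (P.S + 1)), bad P F c d Y τ a) 0))

/-- EDS (may assume SND). Soundness of the edges. If `c = d` take `τ = 0`. Otherwise `c ≠ 0`, `d ≠ 1`,
and there are `Y`, `τ` such that no `a` is bad. `a = 0` gives the state. For `d ≥ 2` and a word `i`,
`|i| ≤ S`, not read-only, with `cl d (num i) ≠ 0`, take `a = num i < 2 ^ (S + 1)`; `ro (num i) = 0`. The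
guessed letters `A.gs Y f` do not depend on `a`. Read-only registers are never changed. (`cq d ≠ 0` is
not needed if `d ≠ 0`, it is `num` of the state.) -/
def EDS_stmt : Prop := ∀ (A : NBM) (w y : List Bool) (P : Prm), Cod A w y P → P.S ≤ P.V →
    ∀ (F : ℕ → ℕ → ℕ → ℕ → ℕ → ℕ),
    (∀ c d Y τ a, a < 2 ^ (P.S + 1) → τ < 2 ^ P.V → F c d Y τ a = 1 →
      ∃ T, (P.wf τ Y c d a T).1 = 1) →
    ∀ (c d : ℕ) (f : List Bool × (List Bool → List Bool)), edge P F c d ≠ 0 → Rep A w y P c f →
      ∃ (g : ℕ → Bool) (t : ℕ), Rep A w y P d (A.run g f t)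

/-- RCS. Soundness of reachability. Induction on `k` with `rc_zero`, `rc_succ`; two runs are composed:
`A.run g (A.run g' f t') t = A.run g'' f (t' + t)` for `g'' i = if i < t' then g' i else g (i - t')`. -/
def RCS_stmt : Prop := ∀ (A : NBM) (R : ℕ → List Bool × (List Bool → List Bool) → Prop)
    (E : ℕ → ℕ → ℕ) (Z : ℕ),
    (∀ c d f, E c d ≠ 0 → R c f → ∃ (g : ℕ → Bool) (t : ℕ), R d (A.run g f t)) →
    ∀ k c d f, rc E Z k c d ≠ 0 → R c f → ∃ (g : ℕ → Bool) (t : ℕ), R d (A.run g f t)

/-- RCC. Completeness of reachability: a chain of at most `2 ^ k` edges. Induction on `k`: for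
`K ≤ 2 ^ (k + 1)` split the chain at `K' = min K (2 ^ k)`; all points are smaller than `Z`; `E c c ≠ 0` is used
for `K = 0`. -/
def RCC_stmt : Prop := ∀ (E : ℕ → ℕ → ℕ) (Z k : ℕ), (∀ c, E c c ≠ 0) →
    ∀ (K : ℕ) (c : ℕ → ℕ), K ≤ 2 ^ k → (∀ i ≤ K, c i < Z) → (∀ i < K, E (c i) (c (i + 1)) ≠ 0) →
      rc E Z k (c 0) (c K) ≠ 0

/-- The register `i` is known at the time `t` if the computation is followed from the time `t₀` in the
configuration `c`: it is read-only, or known in `c`, or reset after `t₀`. -/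
def KnownN (A : NBM) (w y : List Bool) (g : ℕ → Bool) (P : Prm) (c t₀ t : ℕ) (i : List Bool) : Prop :=
  i.head? = some false ∨ P.cl c (num i) ≠ 0 ∨
    ∃ u, t₀ < u ∧ u ≤ t ∧ A.msg (A.conf w y g u).1 = true ∧
      A.reset (sd (A.conf w y g u).1 ++ sd i) = true

/-- EDC (may assume CMP). Completeness of the edges: a part `t₀ ≤ t < t₁` of an accepting computation
`A.conf w y g` (accepting at the time `r`), from the configuration `c` to the configuration `d`. Take
`f = A.conf w y g t₀`, `g' = fun i => g (t₀ + i)` (then `A.run g' f i = A.conf w y g (t₀ + i)`), `τ = t₁ - t₀`,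
`Y` with the bits `dig 2 Y j = ` the letter of the `j`-th asking step (`tab 2 u …`), `Y < 2 ^ u`. The
hypotheses say that the registers which are read are known, and that the registers which are known in
`d` are known after `τ` steps (`KnownN … t₀ (t₀ + i)` is `Known … i` of CMP). So no `a` is bad. -/
def EDC_stmt : Prop := ∀ (A : NBM) (w y : List Bool) (P : Prm), Cod A w y P → P.S ≤ P.V →
    ∀ (F : ℕ → ℕ → ℕ → ℕ → ℕ → ℕ) (X : ℕ) (g : ℕ → Bool) (r t₀ t₁ c d : ℕ),
    (∀ c d Y τ a, a < 2 ^ (P.S + 1) → τ < 2 ^ P.V →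
      (∀ T, τ < T → (P.wf τ Y c d a T).1 = 1) → τ ≤ t₁ - t₀ →
      chs (P.wA τ a) (P.wN τ Y d a) P.wQ P.wW (P.w0 c) (P.cm c) (τ + 1) ≤ X → F c d Y τ a = 1) →
    t₀ ≤ t₁ → t₁ ≤ r → A.Fits w y g r P.S P.Z → A.msgs w y g t₀ t₁ ≤ X →
    A.guesses w y g t₀ t₁ ≤ P.u →
    2 + 2 ^ (P.S + 1) * ((P.u + 1) * (t₁ - t₀ + 1)) ≤ 2 ^ (P.V + 1) → t₁ - t₀ < 2 ^ P.V →
    c ≠ 0 → Rep A w y P c (A.conf w y g t₀) →
    (∀ t, t₀ ≤ t → t < t₁ → KnownN A w y g P c t₀ t (A.addr (A.conf w y g t).1)) →
    (d = 0 → t₁ = r ∧ A.AcceptsAt w y g r) →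
    (d ≠ 0 → d ≠ 1 ∧ Rep A w y P d (A.conf w y g t₁) ∧
      ∀ i : List Bool, i.length ≤ P.S → i.head? ≠ some false → P.cl d (num i) ≠ 0 →
        KnownN A w y g P c t₀ t₁ i) →
    edge P F c d ≠ 0

end Pool.Agent.Helper81.Sus2
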