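import Pool.Agent.Helper28.Few.Defs

/-!
# Nondeterministic machines with messages, and descriptions of their memory: definitions
-/

namespace Pool.Agent.Helper81.Sus2

open Pool.Agent.Helper65.LinSpace Pool.Agent.Helper78.Mpc Pool.Agent.Helper28.Ram

/-- A nondeterministic machine whose registers are changed by messages. Its state is a word and its
registers, which are named by words, contain words. The registers with the names `0 u` are
read-only; such a register contains a word which depends on the letters number `u` (in binary) of the
input word and of the advice word. All other registers are empty at the start. In one step the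
machine in the state `q` reads the content `v` of the register `addr q` and goes into the state
`next (⟨q⟩ b v)`, where `b` is a guessed letter if `ask q` is true and `0` otherwise, and `⟨q⟩` is the
self-delimiting code of `q`. If the new state `q'` is a message (`msg q'` is true), then all registers
which are not read-only change their contents: the new content of the register `i` is
`write (⟨q'⟩ ⟨i⟩ c)`, where `c` is its old content, or the empty word if `reset (⟨q'⟩ ⟨i⟩)` is true.

All functions are computed in linear space. -/
structure NBM where
  start : List Bool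
  init : Option Bool → Option Bool → List Bool
  addr : List Bool → List Bool
  next : List Bool → List Bool
  write : List Bool → List Bool
  ask : List Bool → Bool
  msg : List Bool → Bool
  reset : List Bool → Bool
  addr_lin : LinComp addr
  next_lin : LinComp next
  write_lin : LinComp write
  ask_lin : LinComp fun u => [ask u]
  msg_lin : LinComp fun u => [msg u]
  reset_lin : LinComp fun u => [reset u]

/-- The contents of the registers at the start, `w` being the input word and `y` the advice word. -/
def NBM.mem0 (A : NBM) (w y : List Bool) : List Bool → List Bool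
  | false :: u => A.init w[bval u]? y[bval u]?
  | _ => []

/-- The content of the register `i` after the state `q` was reached, `c` being its old content. -/
def NBM.upd (A : NBM) (q i c : List Bool) : List Bool :=
  if A.msg q ∧ i.head? ≠ some false then
    A.write (sd q ++ (sd i ++ if A.reset (sd q ++ sd i) then [] else c))
  else c

/-- One step with the guessed letter `b`. -/
def NBM.step (A : NBM) (b : Bool) (c : List Bool × (List Bool → List Bool)) :
    List Bool × (List Bool → List Bool) :=
  let q := A.next (sd c.1 ++ (A.ask c.1 && b) :: c.2 (A.addr c.1))
  (q, fun i => A.upd q i (c.2 i))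

/-- The configuration after `t` steps from the configuration `c`, with the guessed letters
`g 0, g 1, …`. -/
def NBM.run (A : NBM) (g : ℕ → Bool) (c : List Bool × (List Bool → List Bool)) :
    ℕ → List Bool × (List Bool → List Bool)
  | 0 => c
  | t + 1 => A.step (g t) (A.run g c t)

/-- The state and the contents of the registers after `t` steps. -/
def NBM.conf (A : NBM) (w y : List Bool) (g : ℕ → Bool) (t : ℕ) :
    List Bool × (List Bool → List Bool) :=
  A.run g (A.start, A.mem0 w y) t

/-- The first letter of the state after `r` steps is `1`. -/
def NBM.AcceptsAt (A : NBM) (w y : List Bool) (g : ℕ → Bool) (r : ℕ) : Prop :=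
  (A.conf w y g r).1.head? = some true

/-- Up to the time `r`, the state and the name of the register which is read are words of length at
most `s`, and the contents of all registers with such names are words of length at most `a`. -/
def NBM.Fits (A : NBM) (w y : List Bool) (g : ℕ → Bool) (r s a : ℕ) : Prop :=
  ∀ t ≤ r, (A.conf w y g t).1.length ≤ s ∧ (A.addr (A.conf w y g t).1).length ≤ s ∧
    ∀ i : List Bool, i.length ≤ s → ((A.conf w y g t).2 i).length ≤ a

/-- The number of messages from the time `t` to the time `t'`. -/
noncomputable def NBM.msgs (A : NBM) (w y : List Bool) (g : ℕ → Bool) (t t' : ℕ) : ℕ :=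
  {i : ℕ | t ≤ i ∧ i < t' ∧ A.msg (A.conf w y g (i + 1)).1}.ncard

/-- The number of letters which are guessed from the time `t` to the time `t'`. -/
noncomputable def NBM.guesses (A : NBM) (w y : List Bool) (g : ℕ → Bool) (t t' : ℕ) : ℕ :=
  {i : ℕ | t ≤ i ∧ i < t' ∧ A.ask (A.conf w y g i).1}.ncard

/-- A decompressor, which computes the contents of registers from descriptions of the memory; see
`Decomp.run`. Both functions are computed in linear space. -/
structure Decomp where
  addr : List Bool → List Bool
  next : List Bool → List Bool
  addr_lin : LinComp addr
  next_lin : LinComp next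

/-- The state of the decompressor after `t` steps, for the description `D` and the register `i`. The
states are words; it starts with the state `0 i`. As long as the state `σ` does not begin with `1`,
the decompressor reads the letters number `addr σ` (in binary) of the input word `w`, of the advice
word `y`, and of the description `D`, and goes into the state `next (⟨σ⟩ ⟨u⟩ ⟨v⟩ d)`, where `u`, `v` and
`d` are the words of length at most `1` which consist of these letters. -/
def Decomp.run (E : Decomp) (w y D i : List Bool) : ℕ → List Bool
  | 0 => false :: i
  | t + 1 =>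
    let σ := E.run w y D i t
    let j := bval (E.addr σ)
    if σ.head? = some true then σ
    else E.next (sd σ ++ (sd w[j]?.toList ++ (sd y[j]?.toList ++ D[j]?.toList)))

/-- The description `D` says that the content of the register `i` is `v`: the decompressor reaches
the state `1 1 v`, and its states and the words `addr σ` which it uses have at most `a` letters. -/
def Decomp.Says (E : Decomp) (w y : List Bool) (a : ℕ) (D i v : List Bool) : Prop :=
  ∃ T, E.run w y D i T = true :: true :: v ∧ (∀ t ≤ T, (E.run w y D i t).length ≤ a) ∧
    ∀ t < T, (E.addr (E.run w y D i t)).length ≤ a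

/-- The register `i` is known at the time `t`, if the computation is followed from the time `t₀` and
`D` is a description of the memory at the time `t₀`: it is read-only, or described by `D`, or reset by
a message after `t₀`. At the time `t₀ = 0` all registers are known. -/
def NBM.Known (A : NBM) (E : Decomp) (w y : List Bool) (g : ℕ → Bool) (a t₀ : ℕ) (D : List Bool)
    (t : ℕ) (i : List Bool) : Prop :=
  t₀ = 0 ∨ i.head? = some false ∨ (∃ v, E.Says w y a D i v) ∨
    ∃ u, t₀ < u ∧ u ≤ t ∧ A.msg (A.conf w y g u).1 ∧ A.reset (sd (A.conf w y g u).1 ++ sd i)

/-- There is an accepting computation which can be divided into at most `2 ^ k` parts, and there are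
descriptions `D i` of at most `z` bits of the memory between the parts `i - 1` and `i`, with the
following bounds, where `n` is the length of the input word: states and names have at most `s` bits,
contents of registers at most `a` bits; a part has at most `2 ^ h (x + 1)` steps, at most `x`
messages, and at most `c n` guessed letters. What a description says is right; every register which
is read is known, and every register which is described by `D (i + 1)` is known at the end of the
part `i`. For `l = h + ⌊log₂ n⌋ + 1`: `x (s + l) l ^ 2 ≤ C (n + 1) ^ (3 / 2)`,
`(s + l) (h + 1) l ≤ C (n + 1) ^ (1 / 2)`, `a l ^ 2 ≤ C (n + 1)`, and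
`(k + 1) (z + s + l) ≤ c (n + 1)`. -/
def NBM.Within (A : NBM) (E : Decomp) (c : ℕ) (C : ℝ) (w y : List Bool) : Prop :=
  ∃ (g : ℕ → Bool) (r s a x h z k K : ℕ) (τ : ℕ → ℕ) (D : ℕ → List Bool), A.AcceptsAt w y g r ∧
    A.Fits w y g r s a ∧ τ 0 = 0 ∧ τ K = r ∧ 0 < K ∧ K ≤ 2 ^ k ∧
    (∀ i < K, τ i ≤ τ (i + 1) ∧ τ (i + 1) ≤ τ i + 2 ^ h * (x + 1) ∧
      A.msgs w y g (τ i) (τ (i + 1)) ≤ x ∧ A.guesses w y g (τ i) (τ (i + 1)) ≤ c * w.length ∧
      ∀ t, τ i ≤ t → t < τ (i + 1) →
        A.Known E w y g a (τ i) (D i) t (A.addr (A.conf w y g t).1)) ∧
    (∀ i, 0 < i → i < K → (D i).length ≤ z ∧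
      ∀ j v : List Bool, j.length ≤ s → j.head? ≠ some false → E.Says w y a (D i) j v →
        (A.conf w y g (τ i)).2 j = v ∧ A.Known E w y g a (τ (i - 1)) (D (i - 1)) (τ i) j) ∧
    (x : ℝ) * ((s : ℝ) + ((h : ℝ) + ((Nat.log 2 w.length : ℝ) + 1))) *
        ((h : ℝ) + ((Nat.log 2 w.length : ℝ) + 1)) ^ 2 ≤ C * ((w.length : ℝ) + 1) ^ ((3 : ℝ) / 2) ∧
    ((s : ℝ) + ((h : ℝ) + ((Nat.log 2 w.length : ℝ) + 1))) * ((h : ℝ) + 1) *
        ((h : ℝ) + ((Nat.log 2 w.length : ℝ) + 1)) ≤ C * ((w.length : ℝ) + 1) ^ ((1 : ℝ) / 2) ∧
    (a : ℝ) * ((h : ℝ) + ((Nat.log 2 w.length : ℝ) + 1)) ^ 2 ≤ C * ((w.length : ℝ) + 1) ∧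
    (k + 1) * (z + s + (h + (Nat.log 2 w.length + 1))) ≤ c * (w.length + 1)

end Pool.Agent.Helper81.Sus2
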