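import Pool.Agent.Helper81.Sus2.Goals2

/-!
# Project SUS, packet SUS-PRM: the parameters are computed in linear space and admissible
-/

namespace Pool.Agent.Helper81.Sus2H88

open Pool.Agent.Helper65.LinSpace Pool.Agent.Helper78.Mpc Pool.Agent.Helper28.Ram Finset
open Pool.Agent.Helper81.Sus2 Pool.Agent.Helper28.Sus
open Pool.Agent.Helper28.Long (ZL ZL_le pow_le_CR)
open Pool.Agent.Helper59.Ram (LS_gR LS_CR CM_le_CR pow_ll_le)
open Pool.Agent.Helper81.Tok3 (gH)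

theorem gH3_pos (n h : ℕ) : 0 < gH n h := Nat.succ_pos _

theorem gH3_le (n h : ℕ) : gH n h ≤ gR n := by
  unfold gH gR
  have h1 : n / (ll n + h) ≤ n / ll n := Nat.div_le_div_left (by omega) (ll_pos n)
  have h2 := Nat.sqrt_le_sqrt h1
  omega

theorem le01_eq_one {a b : ℕ} (h : le01 a b ≠ 0) : a ≤ b := by
  unfold le01 at h
  split_ifs at h with h1
  · exact h1
  · exact absurd rfl h

theorem le01_le (a b : ℕ) : le01 a b ≤ 1 := by
  unfold le01
  split_ifs <;> omega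

theorem gd_cases (c n S Z h k z : ℕ) : gd c n S Z h k z = 0 ∨ gd c n S Z h k z = 1 := by
  have h2 : gd c n S Z h k z ≤ 1 := by
    unfold gd
    exact Nat.mul_le_mul (le01_le _ _) (Nat.mul_le_mul (le01_le _ _) (Nat.mul_le_mul (le01_le _ _)
      (Nat.mul_le_mul (le01_le _ _) (le01_le _ _))))
  omega

theorem gd_one {c n S Z h k z : ℕ} (hg : gd c n S Z h k z = 1) :
    S + h + 5 * ll n + 1 ≤ gH n h ∧ (S + h + 5 * ll n + 2) * h ≤ gH n h ∧
    Z + 1 ≤ gH n h * gH n h ∧ Z ≤ ZL n ∧ (k + 1) * (S + 4 + z) ≤ 5 * (c * (n + 1)) := by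
  have h0 : gd c n S Z h k z ≠ 0 := by omega
  unfold gd at h0
  have h1 := left_ne_zero_of_mul h0
  have h2 := right_ne_zero_of_mul h0
  have h3 := left_ne_zero_of_mul h2
  have h4 := right_ne_zero_of_mul h2
  have h5 := left_ne_zero_of_mul h4
  have h6 := right_ne_zero_of_mul h4
  have h7 := left_ne_zero_of_mul h6
  have h8 := right_ne_zero_of_mul h6
  exact ⟨le01_eq_one h1, le01_eq_one h3, le01_eq_one h5, le01_eq_one h7, le01_eq_one h8⟩

/-- The reduced bounds. -/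
theorem red (c n T : ℕ) :
    gT c n T * (dig (bs c n) T 0 + dig (bs c n) T 2 + 5 * ll n) + 1 ≤
        gH n (gT c n T * dig (bs c n) T 2) ∧
    (gT c n T * (dig (bs c n) T 0 + dig (bs c n) T 2 + 5 * ll n) + 2) *
        (gT c n T * dig (bs c n) T 2) ≤ gH n (gT c n T * dig (bs c n) T 2) ∧
    gT c n T * dig (bs c n) T 1 + 1 ≤
      gH n (gT c n T * dig (bs c n) T 2) * gH n (gT c n T * dig (bs c n) T 2) ∧
    gT c n T * dig (bs c n) T 1 ≤ ZL n ∧
    (gT c n T * dig (bs c n) T 3 + 1) * (gT c n T * dig (bs c n) T 0 + 4 +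
      gT c n T * dig (bs c n) T 4) ≤ 5 * (c * (n + 1)) + 4 := by
  rcases gd_cases c n (dig (bs c n) T 0) (dig (bs c n) T 1) (dig (bs c n) T 2)
    (dig (bs c n) T 3) (dig (bs c n) T 4) with h | h
  · have h' : gT c n T = 0 := h
    rw [h']
    simp only [zero_mul, zero_add, mul_zero]
    have h1 := gH3_pos n 0
    have h2 : 0 < gH n 0 * gH n 0 := Nat.mul_pos h1 h1
    refine ⟨h1, Nat.zero_le _, h2, Nat.zero_le _, by omega⟩
  · have h' : gT c n T = 1 := h
    obtain ⟨h1, h2, h3, h4, h5⟩ := gd_one h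
    rw [h']
    simp only [one_mul]
    exact ⟨h1, h2, h3, h4, by omega⟩

theorem CR_le_CS (c x : ℕ) : CR x ≤ CS c x := by
  unfold CR CS
  exact Nat.pow_le_pow_right (by omega) (by omega)

theorem two_pow_le_CS (c : ℕ) {x t : ℕ} (h : t ≤ 24 * (Nat.log 2 x + 1)) : 2 ^ t ≤ CS c x :=
  (pow_le_CR h).trans (CR_le_CS c x)

theorem two_pow_le (x : ℕ) : 2 ^ (Nat.log 2 x + 1) ≤ (x + 2) ^ 2 := by
  have h1 : 2 ^ Nat.log 2 x ≤ x + 2 := by
    rcases Nat.eq_zero_or_pos x with h | h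
    · rw [h]
      simp
    · exact (Nat.pow_log_le_self 2 h.ne').trans (by omega)
  calc 2 ^ (Nat.log 2 x + 1) = 2 ^ Nat.log 2 x * 2 := pow_succ _ _
    _ ≤ (x + 2) * (x + 2) := Nat.mul_le_mul h1 (by omega)
    _ = _ := (sq _).symm

theorem two_pow_le_CS2 (c : ℕ) {x t : ℕ}
    (h : t ≤ 24 * (Nat.log 2 x + 1) + 20 * (c * (Nat.log 2 x + 1))) : 2 ^ t ≤ CS c x := by
  have h1 : 2 ^ (24 * (Nat.log 2 x + 1)) ≤ CR x := pow_le_CR le_rfl
  have h2 : 2 ^ (20 * (c * (Nat.log 2 x + 1))) ≤ (x + 2) ^ (40 * c) := by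
    calc 2 ^ (20 * (c * (Nat.log 2 x + 1))) = (2 ^ (Nat.log 2 x + 1)) ^ (20 * c) := by
          rw [← pow_mul]
          congr 1
          ring
      _ ≤ ((x + 2) ^ 2) ^ (20 * c) := Nat.pow_le_pow_left (two_pow_le x) _
      _ = _ := by
          rw [← pow_mul]
          congr 1
          ring
  calc 2 ^ t ≤ 2 ^ (24 * (Nat.log 2 x + 1) + 20 * (c * (Nat.log 2 x + 1))) :=
        Nat.pow_le_pow_right (by norm_num) h
    _ = 2 ^ (24 * (Nat.log 2 x + 1)) * 2 ^ (20 * (c * (Nat.log 2 x + 1))) := pow_add _ _ _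
    _ ≤ CR x * (x + 2) ^ (40 * c) := Nat.mul_le_mul h1 h2
    _ ≤ CS c x := by
        unfold CR CS
        rw [← pow_add]
        exact Nat.pow_le_pow_right (by omega) (by omega)

theorem cz_le (c e x y T : ℕ) : (prm c e x y T).cz + 2 ≤
    2 ^ (gT c (Nat.log 2 x) T * dig (bs c (Nat.log 2 x)) T 0 + 4 +
      gT c (Nat.log 2 x) T * dig (bs c (Nat.log 2 x)) T 4) := by
  set n := Nat.log 2 x with hn
  set G := gT c n T with hG
  have e1 : (prm c e x y T).cz = 2 + 2 ^ (G * dig (bs c n) T 0 + 1) *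
    2 ^ (G * dig (bs c n) T 4 + 1) := rfl
  have h3 : 2 ^ (G * dig (bs c n) T 0 + 4 + G * dig (bs c n) T 4) =
      4 * (2 ^ (G * dig (bs c n) T 0 + 1) * 2 ^ (G * dig (bs c n) T 4 + 1)) := by
    rw [← pow_add, show (4 : ℕ) = 2 ^ 2 by norm_num, ← pow_add]
    congr 1
    ring
  have h4 : 2 ≤ 2 ^ (G * dig (bs c n) T 0 + 1) * 2 ^ (G * dig (bs c n) T 4 + 1) := by
    rw [← pow_add]
    calc 2 = 2 ^ 1 := by norm_num
      _ ≤ _ := Nat.pow_le_pow_right (by norm_num) (by omega)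
  rw [e1, h3]
  omega

section

variable {α : Type} [Ctx α]

theorem LS_gH3 {n h : α → ℕ} (hn : LS n) (hh : LS h) : LS (fun a => gH (n a) (h a)) := by
  unfold gH
  fun_prop

theorem LS_ZL {n : α → ℕ} (hn : LS n) : LS (fun a => ZL (n a)) := by
  unfold ZL
  exact LS.div (LS.LW hn) (by fun_prop)

theorem LS_bs (c : ℕ) {n : α → ℕ} (hn : LS n) : LS (fun a => bs c (n a)) := by
  unfold bs
  exact LS.mul (LS.const (c + 1)) (LS.add hn (LS.const 2))

theorem LS_gT (c : ℕ) {n T : α → ℕ} (hn : LS n) (hT : LS T) : LS (fun a => gT c (n a) (T a)) := by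
  have hd : ∀ i : ℕ, LS (fun a => dig (bs c (n a)) (T a) i) := fun i =>
    LS.dig (LS_bs c hn) hT (LS.const i)
  have hl : LS (fun a => ll (n a)) := by fun_prop
  have hgH : LS (fun a => gH (n a) (dig (bs c (n a)) (T a) 2)) := LS_gH3 hn (hd 2)
  have hZL : LS (fun a => ZL (n a)) := LS_ZL hn
  have h5 : LS (fun a => 5 * ll (n a)) := LS.mul (LS.const 5) hl
  have hs : LS (fun a => dig (bs c (n a)) (T a) 0 + dig (bs c (n a)) (T a) 2 + 5 * ll (n a)) :=
    LS.add (LS.add (hd 0) (hd 2)) h5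
  unfold gT gd
  exact LS.mul (LS.le01 (LS.add hs (LS.const 1)) hgH)
    (LS.mul (LS.le01 (LS.mul (LS.add hs (LS.const 2)) (hd 2)) hgH)
      (LS.mul (LS.le01 (LS.add (hd 1) (LS.const 1)) (LS.mul hgH hgH))
        (LS.mul (LS.le01 (hd 1) hZL)
          (LS.le01 (LS.mul (LS.add (hd 3) (LS.const 1))
            (LS.add (LS.add (hd 0) (LS.const 4)) (hd 4)))
            (LS.mul (LS.const 5) (LS.mul (LS.const c) (LS.add hn (LS.const 1))))))))

end

/-- Packet SUS-PRM. -/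
theorem prm : PRM_stmt := by
  refine ⟨?_, ?_, ?_⟩
  · intro α _ c e x y T he hx hy hT
    have hn : LS (fun z => Nat.log 2 (x z)) := LS.log2 hx
    have hG : LS (fun z => gT c (Nat.log 2 (x z)) (T z)) := LS_gT c hn hT
    have hd : ∀ i : ℕ, LS (fun z => dig (bs c (Nat.log 2 (x z))) (T z) i) := fun i =>
      LS.dig (LS_bs c hn) hT (LS.const i)
    have hl : LS (fun z => ll (Nat.log 2 (x z))) := by fun_prop
    have hc : ∀ i : ℕ, LS (fun z => dig (Nat.unpair (e z)).1 (Nat.unpair (e z)).2 i) :=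
      fun i => by fun_prop
    have hCR : LS (fun z => CR (x z)) := LS_CR hx
    have hgR : ∀ n h, gH n h ≤ n + 1 := fun n h =>
      (gH3_le n h).trans (Pool.Agent.Helper59.Ram.gR_le n)
    refine ⟨⟨hc 0, hc 1, hc 2, hc 3, hc 4, hc 5, hc 9, hc 10, hc 6, hc 7, hc 8, LS.LW hn, ?_, hCR,
      hx, hy, LS.mul hG (hd 0), LS.mul hG (hd 1), LS.mul (LS.const c) hn,
      LS.mul hG (LS.add (LS.add (hd 0) (hd 2)) (LS.mul (LS.const 5) hl)),
      LS.mul hG (hd 4), ?_, ?_, ?_, ?_, ?_, ?_, ?_, ?_⟩, hG,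
      LS_gH3 hn (LS.mul hG (hd 2))⟩
    · exact LS.pow_of_le (f := fun _ => 2) (by fun_prop) (LS.mul (LS.const 2) hl) hCR
        fun z => pow_ll_le (x z)
    · unfold CS
      exact (LS.add hx (LS.const 2)).pow_const (8000 + 41 * c)
    · intro z
      show 0 < 2 ^ (2 * ll (Nat.log 2 (x z)))
      positivity
    · intro z
      exact ((beta_pow_le (x z)).trans (CM_le_CR (x z))).trans (CR_le_CS c (x z))
    · intro z
      refine two_pow_le_CS c ?_
      obtain ⟨h1, -, -, -, -⟩ := red c (Nat.log 2 (x z)) (T z)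
      have h2 := h1.trans (hgR _ _)
      have h3 : (Pool.Agent.Helper81.Sus2.prm c (e z) (x z) (y z) (T z)).S =
        gT c (Nat.log 2 (x z)) (T z) * dig (bs c (Nat.log 2 (x z))) (T z) 0 := rfl
      rw [h3]
      rw [Nat.mul_add, Nat.mul_add] at h2
      omega
    · intro z
      refine two_pow_le_CS c ?_
      obtain ⟨-, -, -, h1, -⟩ := red c (Nat.log 2 (x z)) (T z)
      have h2 := h1.trans (ZL_le _)
      have h3 : (Pool.Agent.Helper81.Sus2.prm c (e z) (x z) (y z) (T z)).Z =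
        gT c (Nat.log 2 (x z)) (T z) * dig (bs c (Nat.log 2 (x z))) (T z) 1 := rfl
      rw [h3]
      omega
    · intro z
      refine two_pow_le_CS c ?_
      obtain ⟨h1, -, -, -, -⟩ := red c (Nat.log 2 (x z)) (T z)
      have h2 := h1.trans (hgR _ _)
      have h3 : (Pool.Agent.Helper81.Sus2.prm c (e z) (x z) (y z) (T z)).V =
        gT c (Nat.log 2 (x z)) (T z) * (dig (bs c (Nat.log 2 (x z))) (T z) 0 +
          dig (bs c (Nat.log 2 (x z))) (T z) 2 + 5 * ll (Nat.log 2 (x z))) := rfl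
      rw [h3]
      omega
    · intro z
      show 2 ^ (c * Nat.log 2 (x z)) ≤ CS c (x z)
      rw [mul_comm, pow_mul]
      unfold CS
      have h1 : 2 ^ Nat.log 2 (x z) ≤ x z + 2 := by
        rcases Nat.eq_zero_or_pos (x z) with h | h
        · rw [h]
          simp
        · exact (Nat.pow_log_le_self 2 h.ne').trans (by omega)
      exact (Nat.pow_le_pow_left h1 c).trans (Nat.pow_le_pow_right (by omega) (by omega))
    · intro z
      refine two_pow_le_CS2 c ?_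
      obtain ⟨-, -, -, -, h1⟩ := red c (Nat.log 2 (x z)) (T z)
      have h2 : 1 * (gT c (Nat.log 2 (x z)) (T z) * dig (bs c (Nat.log 2 (x z))) (T z) 0 + 4 +
          gT c (Nat.log 2 (x z)) (T z) * dig (bs c (Nat.log 2 (x z))) (T z) 4) ≤
        (gT c (Nat.log 2 (x z)) (T z) * dig (bs c (Nat.log 2 (x z))) (T z) 3 + 1) *
        (gT c (Nat.log 2 (x z)) (T z) * dig (bs c (Nat.log 2 (x z))) (T z) 0 + 4 +
          gT c (Nat.log 2 (x z)) (T z) * dig (bs c (Nat.log 2 (x z))) (T z) 4) :=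
        Nat.mul_le_mul_right _ (by omega)
      have h3 : (Pool.Agent.Helper81.Sus2.prm c (e z) (x z) (y z) (T z)).z =
        gT c (Nat.log 2 (x z)) (T z) * dig (bs c (Nat.log 2 (x z))) (T z) 4 := rfl
      rw [h3]
      omega
  · intro c e x y T
    refine (Nat.pow_le_pow_left (cz_le c e x y T) _).trans ?_
    rw [← pow_mul]
    refine two_pow_le_CS2 c ?_
    obtain ⟨-, -, -, -, h1⟩ := red c (Nat.log 2 x) T
    generalize gT c (Nat.log 2 x) T * dig (bs c (Nat.log 2 x)) T 3 = k at *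
    generalize gT c (Nat.log 2 x) T * dig (bs c (Nat.log 2 x)) T 0 + 4 +
      gT c (Nat.log 2 x) T * dig (bs c (Nat.log 2 x)) T 4 = w at *
    have h2 : w * (4 * (k + 1)) = 4 * ((k + 1) * w) := by ring
    rw [h2]
    omega
  · intro c e x y T
    obtain ⟨h1, h2, h3, h4, -⟩ := red c (Nat.log 2 x) T
    refine ⟨h1, h2, h3, ?_, ?_, h4⟩
    · show gT c (Nat.log 2 x) T * dig (bs c (Nat.log 2 x)) T 0 ≤ gT c (Nat.log 2 x) T *
        (dig (bs c (Nat.log 2 x)) T 0 + dig (bs c (Nat.log 2 x)) T 2 + 5 * ll (Nat.log 2 x))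
      exact Nat.mul_le_mul_left _ (by omega)
    · show gT c (Nat.log 2 x) T * dig (bs c (Nat.log 2 x)) T 0 < gR (Nat.log 2 x)
      have h5 := h1.trans (gH3_le _ _)
      rw [Nat.mul_add, Nat.mul_add] at h5
      omega

end Pool.Agent.Helper81.Sus2H88
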