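import Pool.Agent.Helper81.Sus2.Goals
import Pool.Agent.Helper11.Ram.MCOR

/-!
# Packet SUS-SND: soundness of the machine on numbers
-/

namespace Pool.Agent.Helper81.Sus2H94

open Pool.Agent.Helper65.LinSpace Pool.Agent.Helper78.Mpc Pool.Agent.Helper28.Ram
  Pool.Agent.Helper81.Sus2 Pool.Agent.Helper28.Sus Finset

theorem capN_cases (S v : ℕ) : capN S v = 0 ∨ capN S v = v := by
  by_cases h : capN S v = 0
  · exact Or.inl h
  · exact Or.inr (capN_ne h)

theorem capN_of_lt {S v : ℕ} (h : v < 2 ^ (S + 1)) : capN S v = v := by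
  unfold capN
  rcases Nat.eq_zero_or_pos v with h0 | h0
  · subst h0
    simp [ifz, lt01]
  · have h1 : Nat.log 2 v < S + 1 := (Nat.log_lt_iff_lt_pow (by norm_num) h0.ne').2 h
    rw [lt01, if_neg (by omega), ifz_zero]

theorem capN_mono {S V v : ℕ} (hSV : S ≤ V) (h : v < 2 ^ (S + 1)) : capN V v = v :=
  capN_of_lt (lt_of_lt_of_le h (Nat.pow_le_pow_right (by norm_num) (by omega)))

theorem num_lt_pow {S : ℕ} {w : List Bool} (h : w.length ≤ S) : num w < 2 ^ (S + 1) := by
  have h1 := Nat.lt_pow_succ_log_self (b := 2) (by norm_num) (num w)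
  rw [log_num] at h1
  exact lt_of_lt_of_le h1 (Nat.pow_le_pow_right (by norm_num) (by omega))

theorem length_le_of_num_lt {S : ℕ} {w : List Bool} (h : num w < 2 ^ (S + 1)) : w.length ≤ S := by
  have h1 : Nat.log 2 (num w) < S + 1 := (Nat.log_lt_iff_lt_pow (by norm_num) (num_pos w).ne').2 h
  rw [log_num] at h1
  omega

section

variable (P : Prm)

theorem dq_enc {q p t : ℕ} (hq : q < 2 ^ (P.S + 1)) : P.dq (P.enc q p t) = q := by
  unfold Prm.dq Prm.enc
  rw [Nat.add_sub_cancel_left, Nat.add_mul_mod_self_left, Nat.mod_eq_of_lt hq]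

theorem div_enc {q p t : ℕ} (hq : q < 2 ^ (P.S + 1)) :
    (P.enc q p t - 2) / 2 ^ (P.S + 1) = p + (P.u + 1) * t := by
  unfold Prm.enc
  rw [Nat.add_sub_cancel_left, Nat.add_mul_div_left _ _ (by positivity), Nat.div_eq_of_lt hq,
    zero_add]

theorem dp_enc {q p t : ℕ} (hq : q < 2 ^ (P.S + 1)) (hp : p ≤ P.u) : P.dp (P.enc q p t) = p := by
  unfold Prm.dp
  rw [div_enc P hq, Nat.add_mul_mod_self_left, Nat.mod_eq_of_lt (by omega)]

theorem dt_enc {q p t : ℕ} (hq : q < 2 ^ (P.S + 1)) (hp : p ≤ P.u) : P.dt (P.enc q p t) = t := by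
  unfold Prm.dt
  rw [div_enc P hq, Nat.add_mul_div_left _ _ (by omega), Nat.div_eq_of_lt (by omega), zero_add]

theorem two_le_enc (q p t : ℕ) : 2 ≤ P.enc q p t := Nat.le_add_right _ _

theorem lt_enc (q p t : ℕ) : lt01 1 (P.enc q p t) = 1 := by
  have := two_le_enc P q p t
  rw [lt01, if_pos (by omega)]

theorem ro_false (v : List Bool) : Prm.ro (num (false :: v)) = 1 := by
  have h1 : num (false :: v) = 2 * num v := by
    show false.toNat + 2 * num v = _
    simp
  have h2 := num_pos v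
  unfold Prm.ro
  rw [h1, lt01, if_pos (by omega)]
  omega

theorem ix_false (v : List Bool) : Prm.ix (num (false :: v)) = bval v := by
  have h1 : num (false :: v) = 2 * num v := by
    show false.toNat + 2 * num v = _
    simp
  unfold Prm.ix
  rw [h1, Nat.mul_div_cancel_left _ (by norm_num), log_num, Pool.Agent.Helper11.Ram.num_eq_bval]
  omega

theorem ro_not {i : List Bool} (h : i.head? ≠ some false) : Prm.ro (num i) = 0 := by
  rcases i with _ | ⟨b, v⟩
  · simp [Prm.ro, num, lt01]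
  · cases b
    · simp at h
    · have h1 : num (true :: v) = 1 + 2 * num v := by
        show true.toNat + 2 * num v = _
        simp
      unfold Prm.ro
      rw [h1]
      have : (1 + 2 * num v) % 2 = 1 := by omega
      rw [this]
      simp

end

section

variable {A : NBM} {w y : List Bool} {P : Prm}

/-- The contents at the start of a part. -/
theorem cm_spec (H : Cod A w y P) {c : ℕ} {f : List Bool × (List Bool → List Bool)} (hc : c ≠ 0)
    (hR : Rep A w y P c f) (i : List Bool) (hi : i.length ≤ P.S) :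
    P.cm c (num i) = 0 ∨ (P.cm c (num i) = num (f.2 i) ∧ (f.2 i).length ≤ P.Z) := by
  rcases hR with ⟨h0, _⟩ | ⟨_, _, _, h3, h4⟩
  · exact absurd h0 hc
  have key : ∀ z, (z = 0 ∨ z = num (f.2 i)) →
      capN P.Z z = 0 ∨ (capN P.Z z = num (f.2 i) ∧ (f.2 i).length ≤ P.Z) := by
    rintro z (rfl | rfl)
    · exact Or.inl (Pool.Agent.Helper11.Ram.capN_zero _)
    · rcases capN_cases P.Z (num (f.2 i)) with h | h
      · exact Or.inl h
      · refine Or.inr ⟨h, length_le_of_num_lt ?_⟩
        rw [← h]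
        exact capN_lt _ _
  unfold Prm.cm
  by_cases hh : i.head? = some false
  · rcases i with _ | ⟨b, v⟩
    · simp at hh
    · have hb : b = false := by simpa using hh
      subst hb
      apply key
      right
      rw [ro_false, ifz_ne one_ne_zero, ix_false, H.hx, H.hy, letN_num, letN_num, H.hini,
        h3 _ rfl]
      rfl
  · apply key
    rw [ro_not hh, ifz_zero]
    exact h4 i hi hh

/-- The invariant. -/
def Inv (P : Prm) (e : ℕ) (m : ℕ → ℕ) (t : ℕ)
    (s : (List Bool × (List Bool → List Bool)) × ℕ) : Prop :=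
  e = 0 ∨ (e = P.enc (num s.1.1) s.2 t ∧ s.1.1.length ≤ P.S ∧ s.2 ≤ P.u ∧
    ∀ i : List Bool, i.length ≤ P.S →
      m (num i) = 0 ∨ (m (num i) = num (s.1.2 i) ∧ (s.1.2 i).length ≤ P.Z))

theorem digit (Y p : ℕ) : dig 2 Y p = (decide (dig 2 Y p = 1)).toNat := by
  have h := dig_lt (q := 2) (by norm_num) Y p
  by_cases h1 : dig 2 Y p = 1
  · rw [h1]
    simp
  · have h0 : dig 2 Y p = 0 := by omega
    rw [h0]
    simp

theorem mem_spec (H : Cod A w y P) (q' i c : List Bool) (hq : q'.length ≤ P.S)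
    (hi : i.length ≤ P.S) (e z : ℕ) (he : lt01 1 e = 1) (hdq : P.dq e = num q')
    (hz : z = 0 ∨ (z = num c ∧ c.length ≤ P.Z)) :
    P.wW (num i) e z = 0 ∨
      (P.wW (num i) e z = num (A.upd q' i c) ∧ (A.upd q' i c).length ≤ P.Z) := by
  unfold Prm.wW
  rw [he, ifz_ne one_ne_zero, hdq, H.hG q' hq]
  -- a general remark on capN
  have key : ∀ (x : ℕ) (v : List Bool), (x = 0 ∨ x = num v) →
      capN P.Z x = 0 ∨ (capN P.Z x = num v ∧ v.length ≤ P.Z) := by
    rintro x v (rfl | rfl)
    · exact Or.inl (Pool.Agent.Helper11.Ram.capN_zero _)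
    · rcases capN_cases P.Z (num v) with h | h
      · exact Or.inl h
      · refine Or.inr ⟨h, length_le_of_num_lt ?_⟩
        rw [← h]
        exact capN_lt _ _
  apply key
  by_cases hm : A.msg q' = true ∧ i.head? ≠ some false
  · have h1 : (A.msg q').toNat * (1 - Prm.ro (num i)) = 1 := by
      rw [hm.1, ro_not hm.2]
      rfl
    rw [h1, ifz_ne one_ne_zero]
    have hupd : A.upd q' i c =
        A.write (sd q' ++ (sd i ++ if A.reset (sd q' ++ sd i) then [] else c)) := by
      unfold NBM.upd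
      rw [if_pos hm]
    rw [hupd]
    rcases hz with rfl | ⟨rfl, hc⟩
    · by_cases hr : A.reset (sd q' ++ sd i) = true
      · rw [H.hW0 q' i hq hi hr, H.hW q' i [] hq hi (Nat.zero_le _), if_pos hr, if_pos hr]
        split_ifs
        · exact Or.inr rfl
        · exact Or.inl rfl
      · left
        unfold Prm.fW
        have hr' : A.reset (sd q' ++ sd i) = false := by simpa using hr
        rw [H.hR q' i hq hi, hr']
        show fnN P.eW P.Z P.Λ P.β P.B (catN (sdN (num q')) (catN (sdN (num i)) (ifz 0 0 1))) = 0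
        rw [ifz_zero]
        have hcat : ∀ a, catN a 0 = 0 := by
          intro a
          by_contra h
          exact (catN_eq_zero h).2 rfl
        rw [hcat, hcat]
        rfl
    · rw [H.hW q' i c hq hi hc]
      split_ifs
      · exact Or.inr rfl
      · exact Or.inl rfl
      · exact Or.inr rfl
      · exact Or.inl rfl
  · have h1 : (A.msg q').toNat * (1 - Prm.ro (num i)) = 0 := by
      rcases Bool.eq_false_or_eq_true (A.msg q') with h | h
      · have hh : i.head? = some false := by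
          by_contra hcon
          exact hm ⟨h, hcon⟩
        rcases i with _ | ⟨b, v⟩
        · simp at hh
        · have hb : b = false := by simpa using hh
          subst hb
          rw [ro_false]
          simp
      · rw [h]
        simp
    rw [h1, ifz_zero]
    have hupd : A.upd q' i c = c := by
      unfold NBM.upd
      rw [if_neg hm]
    rw [hupd]
    rcases hz with h | h
    · exact Or.inl h
    · exact Or.inr h.1

variable {τ Y c d a : ℕ} {f : List Bool × (List Bool → List Bool)}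

theorem wf_succ (t : ℕ) : P.wf τ Y c d a (t + 1) =
    (P.wN τ Y d a (P.wf τ Y c d a t).1 ((P.wf τ Y c d a t).2 (P.wA τ a (P.wf τ Y c d a t).1)),
      fun x => P.wW x (P.wN τ Y d a (P.wf τ Y c d a t).1
        ((P.wf τ Y c d a t).2 (P.wA τ a (P.wf τ Y c d a t).1))) ((P.wf τ Y c d a t).2 x)) := rfl

/-- The events `0` and `1` are kept. -/
theorem wN_small {Q v : ℕ} (hQ : Q ≤ 1) : P.wN τ Y d a Q v = Q := by
  unfold Prm.wN
  rw [lt01, if_neg (by omega), ifz_zero]
  refine capN_of_lt (lt_of_le_of_lt hQ ?_)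
  exact Nat.one_lt_two_pow (by omega)

theorem keep_small {t : ℕ} (h : (P.wf τ Y c d a t).1 ≤ 1) (s : ℕ) :
    (P.wf τ Y c d a (t + s)).1 = (P.wf τ Y c d a t).1 := by
  induction s with
  | zero => rfl
  | succ s ih =>
    rw [← add_assoc, wf_succ]
    show P.wN τ Y d a _ _ = _
    rw [wN_small (by rw [ih]; exact h), ih]

theorem inv_zero (H : Cod A w y P) (hc : c ≠ 0) (hR : Rep A w y P c f) :
    Inv P (P.wf τ Y c d a 0).1 (P.wf τ Y c d a 0).2 0 (A.ptr Y f 0) := by
  show Inv P (capN P.V (P.enc (P.cq c) 0 0)) (P.cm c) 0 (f, 0)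
  rcases capN_cases P.V (P.enc (P.cq c) 0 0) with h | h
  · exact Or.inl h
  · right
    have hcm := cm_spec H hc hR
    rcases hR with ⟨h0, _⟩ | ⟨_, h1, h2, _, _⟩
    · exact absurd h0 hc
    · refine ⟨?_, h2, Nat.zero_le _, fun i hi => hcm i hi⟩
      rw [h, ← h1]

theorem inv_step (H : Cod A w y P) (hSV : P.S ≤ P.V) {t : ℕ} (ht : t < τ)
    (hI : Inv P (P.wf τ Y c d a t).1 (P.wf τ Y c d a t).2 t (A.ptr Y f t)) :
    Inv P (P.wf τ Y c d a (t + 1)).1 (P.wf τ Y c d a (t + 1)).2 (t + 1)
      (A.ptr Y f (t + 1)) := by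
  rcases hI with h0 | ⟨he, hq, hp, hm⟩
  · left
    rw [keep_small (by rw [h0]; exact Nat.zero_le _) 1, h0]
  rw [wf_succ]
  set e := (P.wf τ Y c d a t).1 with hedef
  set m := (P.wf τ Y c d a t).2 with hmdef
  set s := A.ptr Y f t with hsdef
  have hnq := num_lt_pow hq
  have hdq : P.dq e = num s.1.1 := by rw [he, dq_enc P hnq]
  have hdp : P.dp e = s.2 := by rw [he, dp_enc P hnq hp]
  have hdt : P.dt e = t := by rw [he, dt_enc P hnq hp]
  have hlt : lt01 1 e = 1 := by rw [he]; exact lt_enc P _ _ _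
  have heq : eq01 (P.dt e) τ = 0 := by
    rw [hdt, eq01, if_neg (by omega)]
  -- the register which is read
  have hA : P.wA τ a e = capN P.V (P.fA (num s.1.1)) := by
    unfold Prm.wA
    rw [hlt, ifz_ne one_ne_zero, heq, ifz_zero, hdq]
  set v := m (P.wA τ a e) with hv
  have hN : P.wN τ Y d a e v = capN P.V
      (ifz (P.fA (num s.1.1) * P.fN (num s.1.1) (dig 2 Y s.2) v) 0
        (ifz (P.fK (num s.1.1) * eq01 s.2 P.u)
          (P.enc (P.fN (num s.1.1) (dig 2 Y s.2) v) (s.2 + P.fK (num s.1.1)) (t + 1)) 0)) := by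
    unfold Prm.wN
    rw [hlt, ifz_ne one_ne_zero, heq, ifz_zero, hdq, hdp, hdt]
  show Inv P (P.wN τ Y d a e v) (fun x => P.wW x (P.wN τ Y d a e v) (m x)) (t + 1) _
  by_cases hz : P.wN τ Y d a e v = 0
  · exact Or.inl hz
  right
  rw [hN] at hz
  have hz1 := capN_ne hz
  rw [hz1] at hz
  have h1 : P.fA (num s.1.1) * P.fN (num s.1.1) (dig 2 Y s.2) v ≠ 0 := by
    intro h
    rw [h, ifz_zero] at hz
    exact hz rfl
  rw [ifz_ne h1] at hz
  have h2 : P.fK (num s.1.1) * eq01 s.2 P.u = 0 := by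
    by_contra h
    rw [ifz_ne h] at hz
    exact hz rfl
  have hfA : P.fA (num s.1.1) ≠ 0 := left_ne_zero_of_mul h1
  have hfN : P.fN (num s.1.1) (dig 2 Y s.2) v ≠ 0 := right_ne_zero_of_mul h1
  rw [H.hA _ hq] at hfA
  have hal : (A.addr s.1.1).length ≤ P.S := by
    by_contra h
    rw [if_neg h] at hfA
    exact hfA rfl
  have hA2 : P.wA τ a e = num (A.addr s.1.1) := by
    rw [hA, H.hA _ hq, if_pos hal, capN_mono hSV (num_lt_pow hal)]
  have hv0 : v ≠ 0 := by
    intro h
    apply hfN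
    unfold Prm.fN
    rw [h, ifz_zero]
  have hv1 : v = num (s.1.2 (A.addr s.1.1)) ∧ (s.1.2 (A.addr s.1.1)).length ≤ P.Z := by
    rcases hm _ hal with h | h
    · rw [hv, hA2] at hv0
      exact absurd h hv0
    · rw [hv, hA2]
      exact h
  have hfN2 : P.fN (num s.1.1) (dig 2 Y s.2) v =
      if (A.next (sd s.1.1 ++ (A.ask s.1.1 && decide (dig 2 Y s.2 = 1)) ::
        s.1.2 (A.addr s.1.1))).length ≤ P.S then
      num (A.next (sd s.1.1 ++ (A.ask s.1.1 && decide (dig 2 Y s.2 = 1)) ::
        s.1.2 (A.addr s.1.1))) else 0 := by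
    rw [hv1.1]
    conv_lhs => rw [digit Y s.2]
    exact H.hN _ _ _ hq hv1.2
  have hs' : A.ptr Y f (t + 1) = (A.step (decide (dig 2 Y s.2 = 1)) s.1,
      s.2 + (A.ask s.1.1).toNat) := rfl
  have hq' : (A.ptr Y f (t + 1)).1.1 = A.next (sd s.1.1 ++
      (A.ask s.1.1 && decide (dig 2 Y s.2 = 1)) :: s.1.2 (A.addr s.1.1)) := rfl
  rw [← hq'] at hfN2
  have hql : (A.ptr Y f (t + 1)).1.1.length ≤ P.S := by
    by_contra h
    rw [if_neg h] at hfN2
    exact hfN hfN2
  rw [if_pos hql] at hfN2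
  have hp' : (A.ptr Y f (t + 1)).2 = s.2 + P.fK (num s.1.1) := by
    rw [hs', H.hK _ hq]
  have hval : P.wN τ Y d a e v =
      P.enc (num (A.ptr Y f (t + 1)).1.1) (A.ptr Y f (t + 1)).2 (t + 1) := by
    rw [hN, hz1, ifz_ne h1, h2, ifz_zero, hfN2, hp']
  refine ⟨hval, hql, ?_, ?_⟩
  · rw [H.hK _ hq] at h2
    show s.2 + (A.ask s.1.1).toNat ≤ P.u
    rcases Bool.eq_false_or_eq_true (A.ask s.1.1) with h | h
    · rw [h] at h2 ⊢
      have h3 : eq01 s.2 P.u = 0 := by simpa using h2
      have h4 : s.2 ≠ P.u := by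
        intro h5
        rw [eq01, if_pos h5] at h3
        exact one_ne_zero h3
      simp only [Bool.toNat_true]
      omega
    · rw [h]
      simpa using hp
  · intro i hi
    have hM : (A.ptr Y f (t + 1)).1.2 i = A.upd (A.ptr Y f (t + 1)).1.1 i (s.1.2 i) := rfl
    rw [hM]
    refine mem_spec H _ i _ hql hi _ _ ?_ ?_ (hm i hi)
    · rw [hval]
      exact lt_enc P _ _ _
    · rw [hval]
      exact dq_enc P (num_lt_pow hql)

theorem inv_all (H : Cod A w y P) (hSV : P.S ≤ P.V) (hc : c ≠ 0) (hR : Rep A w y P c f) :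
    ∀ t ≤ τ, Inv P (P.wf τ Y c d a t).1 (P.wf τ Y c d a t).2 t (A.ptr Y f t) := by
  intro t
  induction t with
  | zero => exact fun _ => inv_zero H hc hR
  | succ t ih => exact fun ht => inv_step H hSV (by omega) (ih (by omega))

end

theorem snd : SND_stmt := by
  intro A w y P H hSV c d a τ Y T f hc hR ha hT
  have hI := inv_all (Y := Y) (d := d) (a := a) (τ := τ) H hSV hc hR
  have hne : ∀ t ≤ τ, (P.wf τ Y c d a t).1 ≠ 1 := by
    intro t ht h1
    rcases hI t ht with h | ⟨h, _⟩
    · omega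
    · have := two_le_enc P (num (A.ptr Y f t).1.1) (A.ptr Y f t).2 t
      omega
  have hTτ : τ < T := by
    by_contra h
    exact hne T (by omega) hT
  rcases hI τ le_rfl with h0 | ⟨he, hq, hp, hm⟩
  · exfalso
    have h1 := keep_small (P := P) (τ := τ) (Y := Y) (c := c) (d := d) (a := a) (t := τ)
      (by rw [h0]; exact Nat.zero_le _) (T - τ)
    rw [show τ + (T - τ) = T by omega, hT, h0] at h1
    exact one_ne_zero h1
  set e := (P.wf τ Y c d a τ).1 with hedef
  set m := (P.wf τ Y c d a τ).2 with hmdef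
  set s := A.ptr Y f τ with hsdef
  have hnq := num_lt_pow hq
  have hdq : P.dq e = num s.1.1 := by rw [he, dq_enc P hnq]
  have hdt : P.dt e = τ := by rw [he, dt_enc P hnq hp]
  have hlt : lt01 1 e = 1 := by rw [he]; exact lt_enc P _ _ _
  have heq : eq01 (P.dt e) τ = 1 := by rw [hdt, eq01, if_pos rfl]
  have hA : P.wA τ a e = a := by
    unfold Prm.wA
    rw [hlt, ifz_ne one_ne_zero, heq, ifz_ne one_ne_zero, capN_mono hSV ha]
  have hN : (P.wf τ Y c d a (τ + 1)).1 = capN P.V (P.wF d a e (m a)) := by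
    rw [wf_succ]
    show P.wN τ Y d a e (m (P.wA τ a e)) = _
    rw [hA]
    unfold Prm.wN
    rw [hlt, ifz_ne one_ne_zero, heq, ifz_ne one_ne_zero]
  have heq01 : ∀ x z : ℕ, eq01 x z ≤ 1 := by
    intro x z
    unfold eq01
    split_ifs <;> omega
  have hF : P.wF d a e (m a) ≤ 1 := by
    unfold Prm.wF ifz
    split_ifs
    · exact accN_le _
    · exact (Nat.mul_le_mul (heq01 _ _) le_rfl).trans (by omega)
    · exact (Nat.mul_le_mul (heq01 _ _) (heq01 _ _)).trans (by omega)
  have hN1 : (P.wf τ Y c d a (τ + 1)).1 = P.wF d a e (m a) := by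
    rw [hN]
    exact capN_of_lt (lt_of_le_of_lt hF (Nat.one_lt_two_pow (by omega)))
  have hone : P.wF d a e (m a) = 1 := by
    have h1 := keep_small (P := P) (τ := τ) (Y := Y) (c := c) (d := d) (a := a) (t := τ + 1)
      (by rw [hN1]; exact hF) (T - (τ + 1))
    rw [show τ + 1 + (T - (τ + 1)) = T by omega, hT, hN1] at h1
    exact h1.symm
  unfold Prm.wF at hone
  rw [hdq] at hone
  refine ⟨hq, ?_, ?_⟩
  · rintro rfl
    rw [ifz_zero] at hone
    exact (accN_num _).1 hone
  · intro hd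
    rw [ifz_ne hd] at hone
    have h1 : eq01 (num s.1.1) (P.cq d) ≠ 0 := by
      intro h
      rw [h, zero_mul] at hone
      exact zero_ne_one hone
    have h2 : ifz a 1 (eq01 (m a) (P.cl d a)) ≠ 0 := by
      intro h
      rw [h, mul_zero] at hone
      exact zero_ne_one hone
    refine ⟨?_, ?_⟩
    · by_contra h
      rw [eq01, if_neg h] at h1
      exact h1 rfl
    · intro i hi hh hcl
      have ha0 : a ≠ 0 := by
        rw [← hi]
        exact (num_pos i).ne'
      rw [ifz_ne ha0] at h2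
      have h3 : m a = P.cl d a := by
        by_contra h
        rw [eq01, if_neg h] at h2
        exact h2 rfl
      have hil : i.length ≤ P.S := by
        apply length_le_of_num_lt
        rw [hi]
        exact ha
      rcases hm i hil with h | h
      · rw [hi, h3] at h
        exact absurd h hcl
      · rw [← h3, ← hi]
        exact h.1

end Pool.Agent.Helper81.Sus2H94
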