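import Pool.Agent.Helper81.Sus2.Goals

/-!
# EDS: soundness of the edges (assuming SND)
-/

namespace Pool.Agent.Helper81.Sus2H30

open Pool.Agent.Helper65.LinSpace Pool.Agent.Helper78.Mpc Pool.Agent.Helper28.Ram Finset Filter
open Pool.Agent.Helper81.Sus2 Pool.Agent.Helper28.Sus

theorem ro_num (i : List Bool) (hi : i.head? ≠ some false) : Prm.ro (num i) = 0 := by
  cases i with
  | nil =>
    show lt01 1 1 * (1 - 1 % 2) = 0
    simp
  | cons b v =>
    cases b with
    | false => exact absurd rfl hi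
    | true =>
      have h : num (true :: v) = 1 + 2 * num v := rfl
      rw [h]
      show lt01 1 (1 + 2 * num v) * (1 - (1 + 2 * num v) % 2) = 0
      have h2 : (1 + 2 * num v) % 2 = 1 := by omega
      rw [h2, Nat.sub_self, mul_zero]

theorem num_lt_pow (i : List Bool) : num i < 2 ^ (i.length + 1) := by
  induction i with
  | nil =>
    show 1 < 2 ^ (0 + 1)
    norm_num
  | cons b v ih =>
    have h1 := toNat_le_one b
    show b.toNat + 2 * num v < 2 ^ (v.length + 1 + 1)
    rw [pow_succ]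
    omega

theorem run_ro (A : NBM) (g : ℕ → Bool) (f : List Bool × (List Bool → List Bool))
    (i : List Bool) (hi : i.head? = some false) (t : ℕ) : (A.run g f t).2 i = f.2 i := by
  induction t with
  | zero => rfl
  | succ t ih =>
    show (A.step (g t) (A.run g f t)).2 i = f.2 i
    rw [← ih]
    show A.upd _ i ((A.run g f t).2 i) = _
    unfold NBM.upd
    rw [if_neg]
    rintro ⟨_, h⟩
    exact h hi

theorem of_lt01 {x y : ℕ} (h : lt01 x y ≠ 0) : x < y := by
  by_contra hc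
  exact h (if_neg hc)

theorem of_eq01 {x y : ℕ} (h : eq01 x y ≠ 0) : x = y := by
  by_contra hc
  exact h (if_neg hc)

/-- If `a` is not bad and its check is necessary, the result of the simulation is `1`. -/
theorem of_bad {P : Prm} {F : ℕ → ℕ → ℕ → ℕ → ℕ → ℕ} {c d Y τ a : ℕ}
    (h : bad P F c d Y τ a = 0) (ha : a = 0 ∨ (d ≠ 0 ∧ Prm.ro a = 0 ∧ P.cl d a ≠ 0)) :
    F c d Y τ a = 1 := by
  have h1 : ifz a 1 (lt01 0 d * ((1 - Prm.ro a) * lt01 0 (P.cl d a))) = 1 := by
    rcases ha with ha | ⟨h1, h2, h3⟩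
    · subst ha
      rfl
    · by_cases ha : a = 0
      · subst ha
        rfl
      · have e1 : lt01 0 d = 1 := if_pos (Nat.pos_of_ne_zero h1)
        have e2 : lt01 0 (P.cl d a) = 1 := if_pos (Nat.pos_of_ne_zero h3)
        rw [ifz_ne ha, e1, e2, h2]
  unfold bad at h
  rw [h1, ifz_ne one_ne_zero] at h
  by_contra hc
  rw [eq01_ne hc] at h
  exact absurd h (by norm_num)

theorem eds (hSND : SND_stmt) : EDS_stmt := by
  intro A w y P hC hSV F hF c d f he hR
  by_cases hcd : c = d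
  · subst hcd
    exact ⟨fun _ => false, 0, hR⟩
  unfold edge at he
  rw [eq01_ne hcd, zero_add] at he
  have hc0 : c ≠ 0 := by
    have h := of_lt01 (left_ne_zero_of_mul he)
    omega
  have he2 := right_ne_zero_of_mul he
  have hs := of_lt01 (right_ne_zero_of_mul he2)
  obtain ⟨Y, hY, hsY⟩ := Finset.exists_ne_zero_of_sum_ne_zero hs.ne'
  obtain ⟨τ, hτ, hsτ⟩ := Finset.exists_ne_zero_of_sum_ne_zero hsY
  have hbad0 := of_eq01 hsτ
  have hbad : ∀ a < 2 ^ (P.S + 1), bad P F c d Y τ a = 0 := by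
    intro a ha
    exact (Finset.sum_eq_zero_iff.mp hbad0) a (Finset.mem_range.mpr ha)
  have hτ' : τ < 2 ^ P.V := Finset.mem_range.mp hτ
  have hpos : 0 < 2 ^ (P.S + 1) := Nat.two_pow_pos _
  obtain ⟨T0, hT0⟩ := hF c d Y τ 0 hpos hτ' (of_bad (hbad 0 hpos) (Or.inl rfl))
  obtain ⟨hl, hacc, hst⟩ := hSND A w y P hC hSV c d 0 τ Y T0 f hc0 hR hpos hT0
  refine ⟨A.gs Y f, τ, ?_⟩
  rw [NBM.run_gs]
  by_cases hd0 : d = 0
  · exact Or.inl ⟨hd0, hacc hd0⟩
  · refine Or.inr ⟨hd0, (hst hd0).1, hl, ?_, ?_⟩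
    · intro i hi
      rw [← NBM.run_gs, run_ro A _ f i hi τ]
      rcases hR with h | h
      · exact absurd h.1 hc0
      · exact h.2.2.2.1 i hi
    · intro i hi hro
      by_cases hcl : P.cl d (num i) = 0
      · exact Or.inl hcl
      · right
        have hlt : num i < 2 ^ (P.S + 1) :=
          (num_lt_pow i).trans_le (Nat.pow_le_pow_right (by norm_num) (by omega))
        obtain ⟨T, hT⟩ := hF c d Y τ (num i) hlt hτ'
          (of_bad (hbad _ hlt) (Or.inr ⟨hd0, ro_num i hro, hcl⟩))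
        exact ((hSND A w y P hC hSV c d (num i) τ Y T f hc0 hR hlt hT).2.2 hd0).2 i rfl hro hcl

end Pool.Agent.Helper81.Sus2H30
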