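import Pool.Agent.Helper81.Sus2.Goals

/-!
# Project SUS, packet CMP: completeness of the machine on numbers
-/

namespace Pool.Agent.Helper81.Sus2H13

open Pool.Agent.Helper65.LinSpace Pool.Agent.Helper78.Mpc Pool.Agent.Helper28.Ram Finset
  Pool.Agent.Helper81.Sus2 Pool.Agent.Helper28.Sus

theorem capN_of_lt {V x : ℕ} (h : x < 2 ^ (V + 1)) : capN V x = x := by
  unfold capN
  rcases Nat.eq_zero_or_pos x with rfl | hx
  · simp [ifz, lt01]
  · have h1 : Nat.log 2 x < V + 1 := Nat.log_lt_of_lt_pow hx.ne' h
    rw [lt01, if_neg (by omega), ifz_zero]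

theorem num_lt {S : ℕ} {q : List Bool} (h : q.length ≤ S) : num q < 2 ^ (S + 1) := by
  have h1 := Nat.lt_pow_succ_log_self (b := 2) (by norm_num) (num q)
  rw [log_num] at h1
  exact lt_of_lt_of_le h1 (Nat.pow_le_pow_right (by norm_num) (by omega))

section dec

variable (P : Prm)

theorem two_le_enc (q p t : ℕ) : 1 < P.enc q p t := by
  unfold Prm.enc; omega

theorem enc_sub (q p t : ℕ) : P.enc q p t - 2 = q + 2 ^ (P.S + 1) * (p + (P.u + 1) * t) := by
  unfold Prm.enc; omega

theorem dq_enc {q p t : ℕ} (hq : q < 2 ^ (P.S + 1)) : P.dq (P.enc q p t) = q := by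
  unfold Prm.dq
  rw [enc_sub, Nat.add_mul_mod_self_left, Nat.mod_eq_of_lt hq]

theorem div_enc {q p t : ℕ} (hq : q < 2 ^ (P.S + 1)) :
    (P.enc q p t - 2) / 2 ^ (P.S + 1) = p + (P.u + 1) * t := by
  rw [enc_sub, Nat.add_mul_div_left _ _ (by positivity), Nat.div_eq_of_lt hq, zero_add]

theorem dp_enc {q p t : ℕ} (hq : q < 2 ^ (P.S + 1)) (hp : p ≤ P.u) :
    P.dp (P.enc q p t) = p := by
  unfold Prm.dp
  rw [div_enc P hq, Nat.add_mul_mod_self_left, Nat.mod_eq_of_lt (by omega)]

theorem dt_enc {q p t : ℕ} (hq : q < 2 ^ (P.S + 1)) (hp : p ≤ P.u) :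
    P.dt (P.enc q p t) = t := by
  unfold Prm.dt
  rw [div_enc P hq, Nat.add_mul_div_left _ _ (by omega), Nat.div_eq_of_lt (by omega), zero_add]

theorem enc_lt {q p t τ : ℕ} (hq : q < 2 ^ (P.S + 1)) (hp : p ≤ P.u) (ht : t ≤ τ)
    (hV : 2 + 2 ^ (P.S + 1) * ((P.u + 1) * (τ + 1)) ≤ 2 ^ (P.V + 1)) :
    P.enc q p t < 2 ^ (P.V + 1) := by
  refine lt_of_lt_of_le ?_ hV
  unfold Prm.enc
  have h1 : p + (P.u + 1) * t + 1 ≤ (P.u + 1) * (τ + 1) := by
    have : (P.u + 1) * t ≤ (P.u + 1) * τ := Nat.mul_le_mul_left _ ht
    rw [mul_add]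
    omega
  have h2 : 2 ^ (P.S + 1) * (p + (P.u + 1) * t + 1) ≤
      2 ^ (P.S + 1) * ((P.u + 1) * (τ + 1)) := Nat.mul_le_mul_left _ h1
  rw [mul_add, mul_one] at h2
  omega

end dec

theorem ro_false (v : List Bool) : Prm.ro (num (false :: v)) = 1 := by
  have h1 := num_pos v
  have h2 : num (false :: v) = 0 + 2 * num v := rfl
  unfold Prm.ro
  rw [h2, lt01, if_pos (by omega)]
  omega

theorem ix_false (v : List Bool) : Prm.ix (num (false :: v)) = bval v := by
  have h2 : num (false :: v) = 0 + 2 * num v := rfl
  have h3 : num (false :: v) / 2 = num v := by rw [h2]; omega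
  unfold Prm.ix
  rw [h3, log_num, Pool.Agent.Helper11.Ram.num_eq_bval]
  omega

theorem ro_other {i : List Bool} (h : i.head? ≠ some false) : Prm.ro (num i) = 0 := by
  rcases i with _ | ⟨b, v⟩
  · rfl
  · rcases b with _ | _
    · exact absurd rfl h
    · have h2 : num (true :: v) = 1 + 2 * num v := rfl
      unfold Prm.ro
      rw [h2]
      have : 1 - (1 + 2 * num v) % 2 = 0 := by omega
      rw [this, mul_zero]

theorem wf_fst (P : Prm) (τ Y c d a t : ℕ) : (P.wf τ Y c d a (t + 1)).1 =
    P.wN τ Y d a (P.wf τ Y c d a t).1 ((P.wf τ Y c d a t).2 (P.wA τ a (P.wf τ Y c d a t).1)) := rfl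

theorem wf_snd (P : Prm) (τ Y c d a t x : ℕ) : (P.wf τ Y c d a (t + 1)).2 x =
    P.wW x (P.wf τ Y c d a (t + 1)).1 ((P.wf τ Y c d a t).2 x) := rfl

theorem wf_zero (P : Prm) (τ Y c d a : ℕ) : P.wf τ Y c d a 0 = (P.w0 c, P.cm c) := rfl

theorem run_fst (A : NBM) (g : ℕ → Bool) (f : List Bool × (List Bool → List Bool)) (t : ℕ) :
    (A.run g f (t + 1)).1 = A.next (sd (A.run g f t).1 ++
      (A.ask (A.run g f t).1 && g t) :: (A.run g f t).2 (A.addr (A.run g f t).1)) := rfl

theorem run_snd (A : NBM) (g : ℕ → Bool) (f : List Bool × (List Bool → List Bool)) (t : ℕ)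
    (i : List Bool) : (A.run g f (t + 1)).2 i =
      A.upd (A.run g f (t + 1)).1 i ((A.run g f t).2 i) := rfl

theorem cmp : CMP_stmt := by
  intro A w y P hC hSV c d a τ Y g f hc0 hRep hlen hkn hY hu hV ha hd0 hd1
  set p : ℕ → ℕ := fun t => ∑ i ∈ range t, (A.ask (A.run g f i).1).toNat with hp
  have hps : ∀ t, p (t + 1) = p t + (A.ask (A.run g f t).1).toNat := fun t => by
    simp only [hp]
    rw [sum_range_succ]
  have hpm : ∀ s t, s ≤ t → p s ≤ p t := fun s t h => by
    simp only [hp]
    exact sum_le_sum_of_subset (range_mono h)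
  have hpu : ∀ t ≤ τ, p t ≤ P.u := fun t ht => (hpm t τ ht).trans hu
  obtain ⟨hq0, hql, hro, hcl⟩ : num f.1 = P.cq c ∧ f.1.length ≤ P.S ∧
      (∀ i : List Bool, i.head? = some false → f.2 i = A.mem0 w y i) ∧
      ∀ i : List Bool, i.length ≤ P.S → i.head? ≠ some false →
        P.cl c (num i) = 0 ∨ P.cl c (num i) = num (f.2 i) := by
    rcases hRep with h | h
    · exact absurd h.1 hc0
    · exact h.2
  have hSV' : 2 ^ (P.S + 1) ≤ 2 ^ (P.V + 1) := Nat.pow_le_pow_right (by norm_num) (by omega)
  have hqlt : ∀ t ≤ τ, num (A.run g f t).1 < 2 ^ (P.S + 1) := fun t ht => num_lt (hlen t ht).1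
  -- the invariant
  have inv : ∀ t ≤ τ, (P.wf τ Y c d a t).1 = P.enc (num (A.run g f t).1) (p t) t ∧
      ∀ i : List Bool, i.length ≤ P.S → Known A P c (A.run g f) t i →
        (P.wf τ Y c d a t).2 (num i) = num ((A.run g f t).2 i) := by
    intro t
    induction t with
    | zero =>
      intro _
      constructor
      · rw [wf_zero]
        show capN P.V (P.enc (P.cq c) 0 0) = P.enc (num f.1) 0 0
        rw [← hq0]
        exact capN_of_lt (enc_lt P (num_lt hql) (Nat.zero_le _) (Nat.zero_le τ) hV)
      · intro i hi hk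
        rw [wf_zero]
        show P.cm c (num i) = num (f.2 i)
        have hM : (f.2 i).length ≤ P.Z := (hlen 0 (Nat.zero_le _)).2.2 i hi
        unfold Prm.cm
        by_cases hh : i.head? = some false
        · rcases i with _ | ⟨b, v⟩
          · simp at hh
          · have hb : b = false := by simpa using hh
            subst hb
            have e1 : f.2 (false :: v) = A.init w[bval v]? y[bval v]? := hro _ rfl
            rw [ro_false, ix_false, ifz_ne one_ne_zero, hC.hx, hC.hy, letN_num, letN_num, hC.hini,
              ← e1]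
            exact capN_num hM
        · rw [ro_other hh, ifz_zero]
          rcases hk with hk | hk | ⟨v, hv1, hv2, _⟩
          · exact absurd hk hh
          · rcases hcl i hi hh with h1 | h1
            · exact absurd h1 hk
            · rw [h1]
              exact capN_num hM
          · omega
    | succ t ih =>
      intro ht
      obtain ⟨ih1, ih2⟩ := ih (by omega)
      have htt : t < τ := by omega
      set q := (A.run g f t).1 with hqdef
      set M := (A.run g f t).2 with hMdef
      set q' := (A.run g f (t + 1)).1 with hq'def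
      have hq : num q < 2 ^ (P.S + 1) := hqlt t htt.le
      have hq' : num q' < 2 ^ (P.S + 1) := hqlt (t + 1) ht
      have hqlen : q.length ≤ P.S := (hlen t htt.le).1
      have hq'len : q'.length ≤ P.S := (hlen (t + 1) ht).1
      have halen : (A.addr q).length ≤ P.S := (hlen t htt.le).2.1
      have hpt : p t ≤ P.u := hpu t htt.le
      have hA : P.wA τ a (P.enc (num q) (p t) t) = num (A.addr q) := by
        unfold Prm.wA
        rw [lt01, if_pos (two_le_enc P _ _ _), ifz_ne one_ne_zero, dt_enc P hq hpt, eq01,
          if_neg (by omega), ifz_zero, dq_enc P hq, hC.hA q hqlen, if_pos halen]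
        exact capN_num (halen.trans hSV)
      have hv : (P.wf τ Y c d a t).2 (P.wA τ a (P.wf τ Y c d a t).1) = num (M (A.addr q)) := by
        rw [ih1, hA]
        exact ih2 _ halen (hkn t htt)
      have hMlen : (M (A.addr q)).length ≤ P.Z := (hlen t htt.le).2.2 _ halen
      have hfN : P.fN (num q) (dig 2 Y (p t)) (num (M (A.addr q))) = num q' := by
        obtain ⟨b', hb'⟩ : ∃ b' : Bool, dig 2 Y (p t) = b'.toNat := by
          have h1 : dig 2 Y (p t) < 2 := dig_lt (by norm_num) _ _
          rcases (by omega : dig 2 Y (p t) = 0 ∨ dig 2 Y (p t) = 1) with h | h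
          · exact ⟨false, h⟩
          · exact ⟨true, h⟩
        have hbb : (A.ask q && b') = (A.ask q && g t) := by
          by_cases hask : A.ask q = true
          · have h1 := hY t htt hask
            change dig 2 Y (p t) = (g t).toNat at h1
            rw [hb'] at h1
            have h2 : b' = g t := by
              revert h1
              cases b' <;> cases g t <;> simp
            rw [h2]
          · have : A.ask q = false := by simpa using hask
            rw [this]
            rfl
        rw [hb', hC.hN q _ b' hqlen hMlen, hbb]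
        have e1 : q' = A.next (sd q ++ (A.ask q && g t) :: M (A.addr q)) := run_fst A g f t
        rw [← e1, if_pos hq'len]
      have hK : P.fK (num q) = (A.ask q).toNat := hC.hK q hqlen
      have hz : P.fK (num q) * eq01 (p t) P.u = 0 := by
        rw [hK]
        by_cases hask : A.ask q = true
        · have h1 : p (t + 1) ≤ P.u := hpu (t + 1) ht
          rw [hps t] at h1
          change p t + (A.ask q).toNat ≤ P.u at h1
          rw [hask] at h1 ⊢
          simp only [Bool.toNat_true] at h1 ⊢
          rw [eq01, if_neg (by omega)]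
        · have : A.ask q = false := by simpa using hask
          rw [this]
          simp
      have hN : P.wN τ Y d a (P.enc (num q) (p t) t) (num (M (A.addr q))) =
          P.enc (num q') (p (t + 1)) (t + 1) := by
        unfold Prm.wN
        rw [lt01, if_pos (two_le_enc P _ _ _), ifz_ne one_ne_zero, dt_enc P hq hpt, eq01,
          if_neg (by omega), ifz_zero, dq_enc P hq, dp_enc P hq hpt, hfN, hC.hA q hqlen,
          if_pos halen, ifz_ne (mul_ne_zero (num_pos _).ne' (num_pos _).ne'), hz, ifz_zero, hK,
          ← hps t]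
        exact capN_of_lt (enc_lt P hq' (hpu (t + 1) ht) ht hV)
      have hE : (P.wf τ Y c d a (t + 1)).1 = P.enc (num q') (p (t + 1)) (t + 1) := by
        rw [wf_fst, hv, ih1]
        exact hN
      refine ⟨hE, ?_⟩
      intro i hi hk
      have hMi : (A.run g f (t + 1)).2 i = A.upd q' i (M i) := run_snd A g f t i
      rw [wf_snd, hE, hMi]
      · have hlen' : (A.upd q' i (M i)).length ≤ P.Z := by
          rw [← hMi]
          exact (hlen (t + 1) ht).2.2 i hi
        unfold Prm.wW
        rw [lt01, if_pos (two_le_enc P _ _ _), ifz_ne one_ne_zero, dq_enc P hq', hC.hG q' hq'len]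
        by_cases hm : A.msg q' ∧ i.head? ≠ some false
        · have e1 : A.upd q' i (M i) =
              A.write (sd q' ++ (sd i ++ if A.reset (sd q' ++ sd i) then [] else M i)) := by
            unfold NBM.upd
            rw [if_pos hm]
          rw [hm.1, ro_other hm.2]
          simp only [Bool.toNat_true, Nat.sub_zero, mul_one]
          rw [ifz_ne one_ne_zero]
          by_cases hr : A.reset (sd q' ++ sd i) = true
          · have h1 : P.fW (num q') (num i) ((P.wf τ Y c d a t).2 (num i)) =
                P.fW (num q') (num i) (num (M i)) := by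
              unfold Prm.fW
              rw [hC.hR q' i hq'len hi, hr]
              simp only [Bool.toNat_true]
              rw [ifz_ne one_ne_zero, ifz_ne one_ne_zero]
            rw [h1, hC.hW q' i _ hq'len hi ((hlen t htt.le).2.2 i hi), ← e1, if_pos hlen']
            exact capN_num hlen'
          · have hk' : Known A P c (A.run g f) t i := by
              rcases hk with hk | hk | ⟨v, hv1, hv2, hv3, hv4⟩
              · exact Or.inl hk
              · exact Or.inr (Or.inl hk)
              · rcases Nat.lt_or_ge t v with h | h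
                · have : v = t + 1 := by omega
                  subst this
                  exact absurd hv4 hr
                · exact Or.inr (Or.inr ⟨v, hv1, h, hv3, hv4⟩)
            rw [ih2 i hi hk', hC.hW q' i _ hq'len hi ((hlen t htt.le).2.2 i hi), ← e1,
              if_pos hlen']
            exact capN_num hlen'
        · have e1 : A.upd q' i (M i) = M i := by
            unfold NBM.upd
            rw [if_neg hm]
          have hz' : (A.msg q').toNat * (1 - Prm.ro (num i)) = 0 := by
            by_cases h1 : A.msg q' = true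
            · have h2 : i.head? = some false := by
                by_contra h3
                exact hm ⟨h1, h3⟩
              rcases i with _ | ⟨b, v⟩
              · simp at h2
              · have hb : b = false := by simpa using h2
                subst hb
                rw [ro_false]
                simp
            · have : A.msg q' = false := by simpa using h1
              rw [this]
              simp
          have hk' : Known A P c (A.run g f) t i := by
            rcases hk with hk | hk | ⟨v, hv1, hv2, hv3, hv4⟩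
            · exact Or.inl hk
            · exact Or.inr (Or.inl hk)
            · rcases Nat.lt_or_ge t v with h | h
              · have : v = t + 1 := by omega
                subst this
                left
                by_contra h3
                exact hm ⟨hv3, h3⟩
              · exact Or.inr (Or.inr ⟨v, hv1, h, hv3, hv4⟩)
          rw [hz', ifz_zero, ih2 i hi hk', e1]
          exact capN_num ((hlen t htt.le).2.2 i hi)
  have cap1 : capN P.V 1 = 1 := by simp [capN, ifz, lt01]
  -- the final check
  have fin1 : (P.wf τ Y c d a (τ + 1)).1 = 1 := by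
    obtain ⟨h1, h2⟩ := inv τ le_rfl
    have hq := hqlt τ le_rfl
    have hpt := hpu τ le_rfl
    have hA : P.wA τ a (P.enc (num (A.run g f τ).1) (p τ) τ) = a := by
      unfold Prm.wA
      rw [lt01, if_pos (two_le_enc P _ _ _), ifz_ne one_ne_zero, dt_enc P hq hpt, eq01,
        if_pos rfl, ifz_ne one_ne_zero]
      exact capN_of_lt (lt_of_lt_of_le ha hSV')
    rw [wf_fst, h1, hA]
    unfold Prm.wN
    rw [lt01, if_pos (two_le_enc P _ _ _), ifz_ne one_ne_zero, dt_enc P hq hpt]
    have e1 : eq01 τ τ = 1 := by rw [eq01, if_pos rfl]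
    rw [e1, ifz_ne one_ne_zero]
    have e2 : P.wF d a (P.enc (num (A.run g f τ).1) (p τ) τ) ((P.wf τ Y c d a τ).2 a) = 1 := by
      unfold Prm.wF
      rw [dq_enc P hq]
      rcases Nat.eq_zero_or_pos d with hd | hd
      · rw [hd, ifz_zero]
        exact (accN_num _).2 (hd0 hd)
      · obtain ⟨h3, h4⟩ := hd1 hd.ne'
        rw [ifz_ne hd.ne', h3, eq01, if_pos rfl, one_mul]
        rcases h4 with h4 | ⟨i, hi1, hi2, hi3, hi4⟩
        · rw [h4, ifz_zero]
        · have ha0 : a ≠ 0 := by rw [hi2]; exact (num_pos _).ne'
          rw [ifz_ne ha0]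
          have h5 : (P.wf τ Y c d a τ).2 a = num ((A.run g f τ).2 i) := by
            rw [hi2]
            have := h2 i hi1 hi3
            rw [hi2] at this
            exact this
          rw [h5, hi4, eq01, if_pos rfl]
    rw [e2]
    exact cap1
  have fin2 : ∀ T, τ < T → (P.wf τ Y c d a T).1 = 1 := by
    intro T hT
    induction T, hT using Nat.le_induction with
    | base => exact fin1
    | succ T _ ih =>
      rw [wf_fst, ih]
      unfold Prm.wN
      have e1 : lt01 1 1 = 0 := by rw [lt01, if_neg (by omega)]
      rw [e1, ifz_zero]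
      exact cap1
  refine ⟨fin2, ?_⟩
  classical
  unfold chs
  rw [← Set.ncard_coe_finset]
  refine Set.ncard_le_ncard ?_ ((Set.finite_lt_nat τ).subset fun t ht => ht.1)
  intro t ht
  rw [mem_coe, mem_filter, mem_range] at ht
  have ht2 : P.wQ (P.wf τ Y c d a (t + 1)).1 = 0 := ht.2
  rcases Nat.lt_or_ge t τ with h | h
  · refine ⟨h, ?_⟩
    rw [(inv (t + 1) h).1] at ht2
    unfold Prm.wQ at ht2
    rw [lt01, if_pos (two_le_enc P _ _ _), ifz_ne one_ne_zero, dq_enc P (hqlt (t + 1) h),
      hC.hG _ (hlen (t + 1) h).1] at ht2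
    by_contra hcon
    have : A.msg (A.run g f (t + 1)).1 = false := by simpa using hcon
    rw [this] at ht2
    simp at ht2
  · have : t = τ := by omega
    subst this
    rw [fin1] at ht2
    exfalso
    unfold Prm.wQ at ht2
    have e1 : lt01 1 1 = 0 := by rw [lt01, if_neg (by omega)]
    rw [e1, ifz_zero] at ht2
    exact one_ne_zero ht2

end Pool.Agent.Helper81.Sus2H13
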