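import Pool.Agent.Helper81.Sus2.Goals

/-!
Packet SUS-RCS (8926) of MP_c578c8_lc: soundness of Savitch reachability.
-/

namespace Pool.Agent.Helper81.Sus2H81

open Pool.Agent.Helper81.Sus2 Pool.Agent.Helper28.Sus

theorem run_congr (A : NBM) {g g' : ℕ → Bool} (f : List Bool × (List Bool → List Bool)) {t : ℕ}
    (h : ∀ i < t, g i = g' i) : A.run g f t = A.run g' f t := by
  induction t with
  | zero => rfl
  | succ t ih =>
    show A.step (g t) (A.run g f t) = A.step (g' t) (A.run g' f t)
    rw [ih fun i hi => h i (Nat.lt_succ_of_lt hi), h t (Nat.lt_succ_self t)]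

theorem run_add (A : NBM) (g : ℕ → Bool) (f : List Bool × (List Bool → List Bool)) (s t : ℕ) :
    A.run g f (s + t) = A.run (fun i => g (s + i)) (A.run g f s) t := by
  induction t with
  | zero => rfl
  | succ t ih =>
    show A.step (g (s + t)) (A.run g f (s + t)) =
      A.step (g (s + t)) (A.run (fun i => g (s + i)) (A.run g f s) t)
    rw [ih]

theorem run_join (A : NBM) (g g' : ℕ → Bool) (f : List Bool × (List Bool → List Bool)) (s t : ℕ) :
    A.run (fun i => if i < s then g' i else g (i - s)) f (s + t) =
      A.run g (A.run g' f s) t := by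
  have h2 : A.run (fun i => if i < s then g' i else g (i - s)) f s = A.run g' f s :=
    run_congr A f fun i hi => if_pos hi
  rw [run_add, h2]
  refine run_congr A _ fun i _ => ?_
  show (if s + i < s then g' (s + i) else g (s + i - s)) = g i
  rw [if_neg (by omega), Nat.add_sub_cancel_left]

theorem rcs : RCS_stmt := by
  intro A R E Z hE k
  induction k with
  | zero =>
    intro c d f h hc
    exact hE c d f ((rc_zero E Z c d).1 h) hc
  | succ k ih =>
    intro c d f h hc
    obtain ⟨m, _, h1, h2⟩ := (rc_succ E Z k c d).1 h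
    obtain ⟨g', t', r1⟩ := ih c m f h1 hc
    obtain ⟨g, t, r2⟩ := ih m d _ h2 r1
    refine ⟨fun i => if i < t' then g' i else g (i - t'), t' + t, ?_⟩
    rw [run_join]
    exact r2

end Pool.Agent.Helper81.Sus2H81
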