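import Pool.Agent.Helper81.Sus2.Goals

/-!
# Silent events keep the memory
-/

namespace Pool.Agent.Helper81.Sus2H83

open Pool.Agent.Helper65.LinSpace Pool.Agent.Helper78.Mpc Pool.Agent.Helper28.Ram
open Pool.Agent.Helper81.Sus2 Pool.Agent.Helper28.Sus Finset

theorem capN_idem (S v : ℕ) : capN S (capN S v) = capN S v := by
  by_cases h : capN S v = 0
  · rw [h]
    unfold capN ifz
    split_ifs <;> rfl
  · rw [capN_ne h, capN_ne h]

theorem capN_one (S : ℕ) : capN S 1 = 1 := by
  unfold capN lt01 ifz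
  simp

/-- All contents are truncated. -/
theorem exists_cap (P : Prm) (τ Y c d a t x : ℕ) :
    ∃ v, (P.wf τ Y c d a t).2 x = capN P.Z v := by
  cases t with
  | zero => exact ⟨_, rfl⟩
  | succ t => exact ⟨_, rfl⟩

theorem wW_silent (P : Prm) (x f c : ℕ) (h : P.wQ f ≠ 0) : P.wW x f c = capN P.Z c := by
  unfold Prm.wW
  by_cases hf : lt01 1 f = 0
  · rw [hf]
    rfl
  · have h2 : P.fG (P.dq f) = 0 := by
      unfold Prm.wQ at h
      rw [ifz_ne hf] at h
      omega
    rw [ifz_ne hf, h2, zero_mul]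
    rfl

theorem sil : SIL_stmt := by
  intro P τ Y c d a
  constructor
  · intro t x f hf
    obtain ⟨v, hv⟩ := exists_cap P τ Y c d a t x
    rw [wW_silent P x f _ hf, hv, capN_idem]
  · intro t ht
    have h1 : (P.wf τ Y c d a (t + 1)).1 = P.wN τ Y d a (P.wf τ Y c d a t).1
        ((P.wf τ Y c d a t).2 (P.wA τ a (P.wf τ Y c d a t).1)) := rfl
    rw [h1, ht]
    exact capN_one P.V

end Pool.Agent.Helper81.Sus2H83
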