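import Pool.Agent.Helper81.Sus2.Fin
import Pool.Agent.Helper81.Tok3.Bridge
import Pool.Agent.Helper81.Sus2.COD
import Pool.Agent.Helper81.Sus2.SND
import Pool.Agent.Helper81.Sus2.CMP
import Pool.Agent.Helper81.Sus2.SIL
import Pool.Agent.Helper81.Sus2.DEC
import Pool.Agent.Helper81.Sus2.EDS
import Pool.Agent.Helper81.Sus2.RCS
import Pool.Agent.Helper81.Sus2.RCC
import Pool.Agent.Helper81.Sus2.EDC
import Pool.Agent.Helper81.Sus2.LSW
import Pool.Agent.Helper81.Sus2.LSE
import Pool.Agent.Helper81.Sus2.PRM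
import Pool.Agent.Helper81.Sus2.PAR

/-!
# Sustained complexity of the memory: all parts
-/

namespace Pool.Agent.Helper81.Sus2

open Pool.Agent.Helper65.LinSpace Pool.Agent.Helper28.Ram

theorem parts : Parts where
  cod := Pool.Agent.Helper81.Sus2H88.cod
  snd := Pool.Agent.Helper81.Sus2H94.snd
  cmp := Pool.Agent.Helper81.Sus2H13.cmp
  sil := Pool.Agent.Helper81.Sus2H83.sil
  dec := dec
  eds := Pool.Agent.Helper81.Sus2H30.eds Pool.Agent.Helper81.Sus2H94.snd
  rcs := Pool.Agent.Helper81.Sus2H81.rcs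
  rcc := Pool.Agent.Helper81.Sus2H85.rcc
  edc := Pool.Agent.Helper81.Sus2H8.edc Pool.Agent.Helper81.Sus2H13.cmp
  lsw := Pool.Agent.Helper81.Sus2H56.lsw
  lse := Pool.Agent.Helper81.Sus2H14.lse
  prm := Pool.Agent.Helper81.Sus2H88.prm
  par := Pool.Agent.Helper81.Sus2H5.par

/-- **Sustained complexity of the memory.** -/
theorem sustained (c : ℕ) :
    (∀ (A : NBM) (E : Decomp) (L : Set (List Bool)) (C : ℝ),
      (∀ w, Alt true (c * w.length) (fun v => ∃ g r, A.AcceptsAt w v g r) → w ∈ L) →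
      (∀ w ∈ L, Alt true (c * w.length) (A.Within E c C w)) → DLINSPACE L) ∧
    ∃ (L : Set (List Bool)) (s : ℕ → List Bool), DLINSPACE L ∧
      (∀ n, (s n).length = n) ∧
      (∀ w, w ∈ L ↔ Odd ((List.zipWith and (s w.length) w).count true)) ∧
      ∀ (A : NBM) (E : Decomp) (C : ℝ), ∃ c' : ℝ, ∀ (n : ℕ) (α : List Bool),
        ∀ M, M = L ∨ M = Lᶜ →
          ({w : List Bool | w.length = n ∧
            (Alt true (c * n) (fun v => ∃ g r, A.AcceptsAt w (α ++ v) g r) → w ∈ M) ∧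
            (w ∈ M → Alt true (c * n) fun v => A.Within E c C w (α ++ v))}.ncard : ℝ) ≤
          2 ^ n / 2 +
            c' * ((min α.length (n - α.length) : ℕ) + 1) * 2 ^ (((n : ℝ) + α.length) / 2) :=
  ⟨sus_lin Pool.Agent.Helper81.Tok3.theSim parts c,
    sus_main Pool.Agent.Helper81.Tok3.theSim parts c⟩

end Pool.Agent.Helper81.Sus2
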